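import Pool.Agent.U982.M15595.Tree

set_option autoImplicit false
set_option maxRecDepth 100000
set_option exponentiation.threshold 1000000000

namespace Pool.Agent.U982.M15595

open Pool.Agent.U982.DL

theorem r14 : run 9 16 7597568 11 t14 = true := by decide +kernel

end Pool.Agent.U982.M15595
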