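import Pool.Agent.U982.DK.Bound
import Pool.Agent.U982.M15595.Cov
import Pool.Agent.U982.M15595.A00
import Pool.Agent.U982.M15595.A01
import Pool.Agent.U982.M15595.A02
import Pool.Agent.U982.M15595.A03
import Pool.Agent.U982.M15595.A04
import Pool.Agent.U982.M15595.A05
import Pool.Agent.U982.M15595.A06
import Pool.Agent.U982.M15595.A07
import Pool.Agent.U982.M15595.A08
import Pool.Agent.U982.M15595.A09
import Pool.Agent.U982.M15595.A10
import Pool.Agent.U982.M15595.A11
import Pool.Agent.U982.M15595.A12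
import Pool.Agent.U982.M15595.A13
import Pool.Agent.U982.M15595.A14
import Pool.Agent.U982.M15595.A15
import Pool.Agent.U982.M15595.A16
import Pool.Agent.U982.M15595.A17
import Pool.Agent.U982.M15595.A18
import Pool.Agent.U982.M15595.A19
import Pool.Agent.U982.M15595.A20
import Pool.Agent.U982.M15595.A21
import Pool.Agent.U982.M15595.A22
import Pool.Agent.U982.M15595.A23
import Pool.Agent.U982.M15595.A24
import Pool.Agent.U982.M15595.A25
import Pool.Agent.U982.M15595.A26
import Pool.Agent.U982.M15595.A27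
import Pool.Agent.U982.M15595.A28
import Pool.Agent.U982.M15595.A29
import Pool.Agent.U982.M15595.A30
import Pool.Agent.U982.M15595.A31
import Pool.Agent.U982.M15595.A32
import Pool.Agent.U982.M15595.A33
import Pool.Agent.U982.M15595.A34
import Pool.Agent.U982.M15595.A35
import Pool.Agent.U982.M15595.A36
import Pool.Agent.U982.M15595.A37
import Pool.Agent.U982.M15595.A38
import Pool.Agent.U982.M15595.A39
import Pool.Agent.U982.M15595.A40
import Pool.Agent.U982.M15595.A41
import Pool.Agent.U982.M15595.A42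

set_option autoImplicit false
set_option maxRecDepth 100000
set_option exponentiation.threshold 1000000000

namespace Pool.Agent.U982.M15595

open Pool.Agent.U982.DL

open Pool.Agent.X40.SQ (q al)
open Pool.Agent.U982.DK (q_lt_pow)

theorem hl : 7597568 ≤ al (2 ^ 11) := by decide +kernel

theorem hj : 7597568 ≤ al 1126 := by decide +kernel

theorem hq : ∀ v < 7597568, q v < 2 ^ (16 * 2 ^ 9) := fun v hv => q_lt_pow v 2757 (16 * 2 ^ 9) (by norm_num) (by omega) (by decide +kernel)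

theorem hok : Okk 9 16 7597568 1 (4 * 1126) := by
  simp only [Okk]
  norm_num

theorem h0 : ∀ v, memB t0 v = true → ¬ (q v + 1).Prime :=
  run_spec 9 16 7597568 11 1126 t0 (by norm_num) (by norm_num) hl hj hok hq r0

theorem h1 : ∀ v, memB t1 v = true → ¬ (q v + 1).Prime :=
  run_spec 9 16 7597568 11 1126 t1 (by norm_num) (by norm_num) hl hj hok hq r1

theorem h2 : ∀ v, memB t2 v = true → ¬ (q v + 1).Prime :=
  run_spec 9 16 7597568 11 1126 t2 (by norm_num) (by norm_num) hl hj hok hq r2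

theorem h3 : ∀ v, memB t3 v = true → ¬ (q v + 1).Prime :=
  run_spec 9 16 7597568 11 1126 t3 (by norm_num) (by norm_num) hl hj hok hq r3

theorem h4 : ∀ v, memB t4 v = true → ¬ (q v + 1).Prime :=
  run_spec 9 16 7597568 11 1126 t4 (by norm_num) (by norm_num) hl hj hok hq r4

theorem h5 : ∀ v, memB t5 v = true → ¬ (q v + 1).Prime :=
  run_spec 9 16 7597568 11 1126 t5 (by norm_num) (by norm_num) hl hj hok hq r5

theorem h6 : ∀ v, memB t6 v = true → ¬ (q v + 1).Prime :=
  run_spec 9 16 7597568 11 1126 t6 (by norm_num) (by norm_num) hl hj hok hq r6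

theorem h7 : ∀ v, memB t7 v = true → ¬ (q v + 1).Prime :=
  run_spec 9 16 7597568 11 1126 t7 (by norm_num) (by norm_num) hl hj hok hq r7

theorem h8 : ∀ v, memB t8 v = true → ¬ (q v + 1).Prime :=
  run_spec 9 16 7597568 11 1126 t8 (by norm_num) (by norm_num) hl hj hok hq r8

theorem h9 : ∀ v, memB t9 v = true → ¬ (q v + 1).Prime :=
  run_spec 9 16 7597568 11 1126 t9 (by norm_num) (by norm_num) hl hj hok hq r9

theorem h10 : ∀ v, memB t10 v = true → ¬ (q v + 1).Prime :=
  run_spec 9 16 7597568 11 1126 t10 (by norm_num) (by norm_num) hl hj hok hq r10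

theorem h11 : ∀ v, memB t11 v = true → ¬ (q v + 1).Prime :=
  run_spec 9 16 7597568 11 1126 t11 (by norm_num) (by norm_num) hl hj hok hq r11

theorem h12 : ∀ v, memB t12 v = true → ¬ (q v + 1).Prime :=
  run_spec 9 16 7597568 11 1126 t12 (by norm_num) (by norm_num) hl hj hok hq r12

theorem h13 : ∀ v, memB t13 v = true → ¬ (q v + 1).Prime :=
  run_spec 9 16 7597568 11 1126 t13 (by norm_num) (by norm_num) hl hj hok hq r13

theorem h14 : ∀ v, memB t14 v = true → ¬ (q v + 1).Prime :=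
  run_spec 9 16 7597568 11 1126 t14 (by norm_num) (by norm_num) hl hj hok hq r14

theorem h15 : ∀ v, memB t15 v = true → ¬ (q v + 1).Prime :=
  run_spec 9 16 7597568 11 1126 t15 (by norm_num) (by norm_num) hl hj hok hq r15

theorem h16 : ∀ v, memB t16 v = true → ¬ (q v + 1).Prime :=
  run_spec 9 16 7597568 11 1126 t16 (by norm_num) (by norm_num) hl hj hok hq r16

theorem h17 : ∀ v, memB t17 v = true → ¬ (q v + 1).Prime :=
  run_spec 9 16 7597568 11 1126 t17 (by norm_num) (by norm_num) hl hj hok hq r17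

theorem h18 : ∀ v, memB t18 v = true → ¬ (q v + 1).Prime :=
  run_spec 9 16 7597568 11 1126 t18 (by norm_num) (by norm_num) hl hj hok hq r18

theorem h19 : ∀ v, memB t19 v = true → ¬ (q v + 1).Prime :=
  run_spec 9 16 7597568 11 1126 t19 (by norm_num) (by norm_num) hl hj hok hq r19

theorem h20 : ∀ v, memB t20 v = true → ¬ (q v + 1).Prime :=
  run_spec 9 16 7597568 11 1126 t20 (by norm_num) (by norm_num) hl hj hok hq r20

theorem h21 : ∀ v, memB t21 v = true → ¬ (q v + 1).Prime :=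
  run_spec 9 16 7597568 11 1126 t21 (by norm_num) (by norm_num) hl hj hok hq r21

theorem h22 : ∀ v, memB t22 v = true → ¬ (q v + 1).Prime :=
  run_spec 9 16 7597568 11 1126 t22 (by norm_num) (by norm_num) hl hj hok hq r22

theorem h23 : ∀ v, memB t23 v = true → ¬ (q v + 1).Prime :=
  run_spec 9 16 7597568 11 1126 t23 (by norm_num) (by norm_num) hl hj hok hq r23

theorem h24 : ∀ v, memB t24 v = true → ¬ (q v + 1).Prime :=
  run_spec 9 16 7597568 11 1126 t24 (by norm_num) (by norm_num) hl hj hok hq r24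

theorem h25 : ∀ v, memB t25 v = true → ¬ (q v + 1).Prime :=
  run_spec 9 16 7597568 11 1126 t25 (by norm_num) (by norm_num) hl hj hok hq r25

theorem h26 : ∀ v, memB t26 v = true → ¬ (q v + 1).Prime :=
  run_spec 9 16 7597568 11 1126 t26 (by norm_num) (by norm_num) hl hj hok hq r26

theorem h27 : ∀ v, memB t27 v = true → ¬ (q v + 1).Prime :=
  run_spec 9 16 7597568 11 1126 t27 (by norm_num) (by norm_num) hl hj hok hq r27

theorem h28 : ∀ v, memB t28 v = true → ¬ (q v + 1).Prime :=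
  run_spec 9 16 7597568 11 1126 t28 (by norm_num) (by norm_num) hl hj hok hq r28

theorem h29 : ∀ v, memB t29 v = true → ¬ (q v + 1).Prime :=
  run_spec 9 16 7597568 11 1126 t29 (by norm_num) (by norm_num) hl hj hok hq r29

theorem h30 : ∀ v, memB t30 v = true → ¬ (q v + 1).Prime :=
  run_spec 9 16 7597568 11 1126 t30 (by norm_num) (by norm_num) hl hj hok hq r30

theorem h31 : ∀ v, memB t31 v = true → ¬ (q v + 1).Prime :=
  run_spec 9 16 7597568 11 1126 t31 (by norm_num) (by norm_num) hl hj hok hq r31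

theorem h32 : ∀ v, memB t32 v = true → ¬ (q v + 1).Prime :=
  run_spec 9 16 7597568 11 1126 t32 (by norm_num) (by norm_num) hl hj hok hq r32

theorem h33 : ∀ v, memB t33 v = true → ¬ (q v + 1).Prime :=
  run_spec 9 16 7597568 11 1126 t33 (by norm_num) (by norm_num) hl hj hok hq r33

theorem h34 : ∀ v, memB t34 v = true → ¬ (q v + 1).Prime :=
  run_spec 9 16 7597568 11 1126 t34 (by norm_num) (by norm_num) hl hj hok hq r34

theorem h35 : ∀ v, memB t35 v = true → ¬ (q v + 1).Prime :=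
  run_spec 9 16 7597568 11 1126 t35 (by norm_num) (by norm_num) hl hj hok hq r35

theorem h36 : ∀ v, memB t36 v = true → ¬ (q v + 1).Prime :=
  run_spec 9 16 7597568 11 1126 t36 (by norm_num) (by norm_num) hl hj hok hq r36

theorem h37 : ∀ v, memB t37 v = true → ¬ (q v + 1).Prime :=
  run_spec 9 16 7597568 11 1126 t37 (by norm_num) (by norm_num) hl hj hok hq r37

theorem h38 : ∀ v, memB t38 v = true → ¬ (q v + 1).Prime :=
  run_spec 9 16 7597568 11 1126 t38 (by norm_num) (by norm_num) hl hj hok hq r38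

theorem h39 : ∀ v, memB t39 v = true → ¬ (q v + 1).Prime :=
  run_spec 9 16 7597568 11 1126 t39 (by norm_num) (by norm_num) hl hj hok hq r39

theorem h40 : ∀ v, memB t40 v = true → ¬ (q v + 1).Prime :=
  run_spec 9 16 7597568 11 1126 t40 (by norm_num) (by norm_num) hl hj hok hq r40

theorem h41 : ∀ v, memB t41 v = true → ¬ (q v + 1).Prime :=
  run_spec 9 16 7597568 11 1126 t41 (by norm_num) (by norm_num) hl hj hok hq r41

theorem h42 : ∀ v, memB t42 v = true → ¬ (q v + 1).Prime :=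
  run_spec 9 16 7597568 11 1126 t42 (by norm_num) (by norm_num) hl hj hok hq r42

theorem hall : ∀ t ∈ Ts, ∀ v, memB t v = true → ¬ (q v + 1).Prime :=
  List.forall_mem_cons.mpr ⟨h0, (List.forall_mem_cons.mpr ⟨h1, (List.forall_mem_cons.mpr ⟨h2, (List.forall_mem_cons.mpr ⟨h3, (List.forall_mem_cons.mpr ⟨h4, (List.forall_mem_cons.mpr ⟨h5, (List.forall_mem_cons.mpr ⟨h6, (List.forall_mem_cons.mpr ⟨h7, (List.forall_mem_cons.mpr ⟨h8, (List.forall_mem_cons.mpr ⟨h9, (List.forall_mem_cons.mpr ⟨h10, (List.forall_mem_cons.mpr ⟨h11, (List.forall_mem_cons.mpr ⟨h12, (List.forall_mem_cons.mpr ⟨h13, (List.forall_mem_cons.mpr ⟨h14, (List.forall_mem_cons.mpr ⟨h15, (List.forall_mem_cons.mpr ⟨h16, (List.forall_mem_cons.mpr ⟨h17, (List.forall_mem_cons.mpr ⟨h18, (List.forall_mem_cons.mpr ⟨h19, (List.forall_mem_cons.mpr ⟨h20, (List.forall_mem_cons.mpr ⟨h21, (List.forall_mem_cons.mpr ⟨h22, (List.forall_mem_cons.mpr ⟨h23, (List.forall_mem_cons.mpr ⟨h24, (List.forall_mem_cons.mpr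 ⟨h25, (List.forall_mem_cons.mpr ⟨h26, (List.forall_mem_cons.mpr ⟨h27, (List.forall_mem_cons.mpr ⟨h28, (List.forall_mem_cons.mpr ⟨h29, (List.forall_mem_cons.mpr ⟨h30, (List.forall_mem_cons.mpr ⟨h31, (List.forall_mem_cons.mpr ⟨h32, (List.forall_mem_cons.mpr ⟨h33, (List.forall_mem_cons.mpr ⟨h34, (List.forall_mem_cons.mpr ⟨h35, (List.forall_mem_cons.mpr ⟨h36, (List.forall_mem_cons.mpr ⟨h37, (List.forall_mem_cons.mpr ⟨h38, (List.forall_mem_cons.mpr ⟨h39, (List.forall_mem_cons.mpr ⟨h40, (List.forall_mem_cons.mpr ⟨h41, (List.forall_mem_cons.mpr ⟨h42, (by intro t ht; simp at ht)⟩)⟩)⟩)⟩)⟩)⟩)⟩)⟩)⟩)⟩)⟩)⟩)⟩)⟩)⟩)⟩)⟩)⟩)⟩)⟩)⟩)⟩)⟩)⟩)⟩)⟩)⟩)⟩)⟩)⟩)⟩)⟩)⟩)⟩)⟩)⟩)⟩)⟩)⟩)⟩)⟩)⟩)⟩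


end Pool.Agent.U982.M15595
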