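import Pool.Agent.U982.DL.Main

set_option autoImplicit false
set_option maxRecDepth 100000
set_option exponentiation.threshold 1000000000

namespace Pool.Agent.U982.M15595

open Pool.Agent.U982.DL

/-- part 0 of the values -/
noncomputable def t0 : T := T.nd (T.nd (T.nd (T.nd (T.nd (T.nd (T.nd (T.nd (T.nd (T.lf (K.s 3519 (K.s 1944 (K.s 1017 (K.s 639 (K.s 368 (K.s 240 (K.s 162 (K.s 115 (K.s 60 K.z K.t) (K.s 5 K.t K.t)) (K.s 58 K.t (K.s 5 K.t K.t))) (K.s 108 (K.s 30 K.t (K.s 52 K.t K.t)) (K.s 3 K.t (K.s 9 K.t K.t)))) (K.s 136 (K.s 37 (K.s 1 K.t (K.s 16 K.t K.t)) (K.s 30 K.t (K.s 15 K.t K.t))) (K.s 63 (K.s 21 K.t (K.s 15 K.t K.t)) (K.s 3 K.t (K.s 60 K.t K.t))))) (K.s 162 (K.s 78 (K.s 36 (K.s 6 K.t (K.s 15 K.t K.t)) (K.s 15 K.t (K.s 3 K.t K.t))) (K.s 63 (K.s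 8 K.t (K.s 25 K.t K.t)) (K.s 11 K.t (K.s 4 K.t K.t)))) (K.s 117 (K.s 27 (K.s 9 K.t (K.s 9 K.t K.t)) (K.s 42 K.t (K.s 30 K.t K.t))) (K.s 48 (K.s 6 K.t (K.s 21 K.t K.t)) (K.s 24 K.t (K.s 6 K.t K.t)))))) (K.s 543 (K.s 258 (K.s 171 (K.s 63 (K.s 27 K.t (K.s 27 K.t K.t)) (K.s 60 K.t (K.s 30 K.t K.t))) (K.s 37 (K.s 16 K.t (K.s 11 K.t K.t)) (K.s 20 K.t (K.s 15 K.t K.t)))) (K.s 132 (K.s 111 (K.s 25 K.t (K.s 50 K.t K.t)) (K.s 17 K.t (K.s 1 K.t K.t))) (K.s 51 (K.s 18 K.t (K.s 15 K.t K.t)) (K.s 5 K.t (K.s 49 K.t K.t))))) (K.s 180 (K.s 69 (K.s 15 (K.s 6 K.t (K.s 6 K.t K.t)) (K.s 9 K.t (K.s 36 K.t K.t))) (K.s 66 (K.s 21 K.t (K.s 25 K.t K.t)) (K.s 27 K.t (K.s 6 K.t K.t)))) (K.s 90 (K.s 45 (K.s 15 K.t (K.s 25 K.t K.t)) (K.s 15 K.t (K.s 15 K.t K.t))) (K.s 60 (K.s 15 K.t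 (K.s 27 K.t K.t)) (K.s 2 K.t (K.s 33 K.t K.t))))))) (K.s 729 (K.s 405 (K.s 216 (K.s 126 (K.s 56 (K.s 6 K.t (K.s 48 K.t K.t)) (K.s 16 K.t (K.s 9 K.t K.t))) (K.s 30 (K.s 9 K.t (K.s 9 K.t K.t)) (K.s 15 K.t (K.s 30 K.t K.t)))) (K.s 108 (K.s 40 (K.s 15 K.t (K.s 9 K.t K.t)) (K.s 23 K.t (K.s 27 K.t K.t))) (K.s 42 (K.s 7 K.t (K.s 2 K.t K.t)) (K.s 12 K.t (K.s 3 K.t K.t))))) (K.s 141 (K.s 78 (K.s 45 (K.s 3 K.t (K.s 26 K.t K.t)) (K.s 6 K.t (K.s 15 K.t K.t))) (K.s 21 (K.s 3 K.t (K.s 6 K.t K.t)) (K.s 27 K.t (K.s 9 K.t K.t)))) (K.s 90 (K.s 40 (K.s 6 K.t (K.s 24 K.t K.t)) (K.s 5 K.t (K.s 30 K.t K.t))) (K.s 60 (K.s 3 K.t (K.s 42 K.t K.t)) (K.s 6 K.t (K.s 9 K.t K.t)))))) (K.s 398 (K.s 162 (K.s 81 (K.s 37 (K.s 18 K.t (K.s 9 K.t K.t)) (K.s 20 K.t (K.s 15 K.t K.t))) (K.s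 42 (K.s 18 K.t (K.s 3 K.t K.t)) (K.s 4 K.t (K.s 5 K.t K.t)))) (K.s 90 (K.s 45 (K.s 21 K.t (K.s 17 K.t K.t)) (K.s 18 K.t (K.s 18 K.t K.t))) (K.s 75 (K.s 30 K.t (K.s 15 K.t K.t)) (K.s 36 K.t (K.s 9 K.t K.t))))) (K.s 154 (K.s 79 (K.s 34 (K.s 9 K.t (K.s 7 K.t K.t)) (K.s 15 K.t (K.s 15 K.t K.t))) (K.s 40 (K.s 18 K.t (K.s 12 K.t K.t)) (K.s 5 K.t (K.s 18 K.t K.t)))) (K.s 114 (K.s 60 (K.s 15 K.t (K.s 20 K.t K.t)) (K.s 15 K.t (K.s 4 K.t K.t))) (K.s 126 (K.s 36 K.t (K.s 15 K.t K.t)) (K.s 15 K.t (K.s 30 K.t K.t)))))))) (K.s 1171 (K.s 513 (K.s 261 (K.s 144 (K.s 69 (K.s 56 (K.s 31 K.t (K.s 14 K.t K.t)) (K.s 2 K.t (K.s 5 K.t K.t))) (K.s 52 (K.s 12 K.t (K.s 38 K.t K.t)) (K.s 5 K.t (K.s 9 K.t K.t)))) (K.s 63 (K.s 12 (K.s 6 K.t (K.s 3 K.t K.t)) (K.s 15 K.t (K.s 15 K.t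 K.t))) (K.s 24 (K.s 9 K.t (K.s 3 K.t K.t)) (K.s 12 K.t (K.s 12 K.t K.t))))) (K.s 120 (K.s 70 (K.s 42 (K.s 15 K.t (K.s 18 K.t K.t)) (K.s 3 K.t (K.s 18 K.t K.t))) (K.s 35 (K.s 11 K.t (K.s 3 K.t K.t)) (K.s 3 K.t (K.s 9 K.t K.t)))) (K.s 69 (K.s 33 (K.s 6 K.t (K.s 9 K.t K.t)) (K.s 9 K.t (K.s 18 K.t K.t))) (K.s 45 (K.s 6 K.t (K.s 30 K.t K.t)) (K.s 9 K.t (K.s 2 K.t K.t)))))) (K.s 348 (K.s 180 (K.s 78 (K.s 63 (K.s 18 K.t (K.s 27 K.t K.t)) (K.s 5 K.t (K.s 4 K.t K.t))) (K.s 48 (K.s 15 K.t (K.s 15 K.t K.t)) (K.s 22 K.t (K.s 20 K.t K.t)))) (K.s 108 (K.s 58 (K.s 18 K.t (K.s 16 K.t K.t)) (K.s 5 K.t (K.s 18 K.t K.t))) (K.s 30 (K.s 23 K.t (K.s 4 K.t K.t)) (K.s 6 K.t (K.s 18 K.t K.t))))) (K.s 144 (K.s 75 (K.s 57 (K.s 12 K.t (K.s 18 K.t K.t)) (K.s 3 K.t (K.s 12 K.t K.t)))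 (K.s 45 (K.s 30 K.t (K.s 9 K.t K.t)) (K.s 12 K.t (K.s 3 K.t K.t)))) (K.s 66 (K.s 30 (K.s 12 K.t (K.s 15 K.t K.t)) (K.s 2 K.t (K.s 4 K.t K.t))) (K.s 30 (K.s 18 K.t (K.s 9 K.t K.t)) (K.s 60 K.t (K.s 8 K.t K.t))))))) (K.s 445 (K.s 224 (K.s 110 (K.s 62 (K.s 35 (K.s 8 K.t (K.s 2 K.t K.t)) (K.s 5 K.t (K.s 15 K.t K.t))) (K.s 25 (K.s 18 K.t (K.s 3 K.t K.t)) (K.s 8 K.t (K.s 3 K.t K.t)))) (K.s 51 (K.s 25 (K.s 15 K.t (K.s 3 K.t K.t)) (K.s 5 K.t (K.s 3 K.t K.t))) (K.s 27 (K.s 9 K.t (K.s 15 K.t K.t)) (K.s 1 K.t (K.s 20 K.t K.t))))) (K.s 121 (K.s 56 (K.s 36 (K.s 6 K.t (K.s 21 K.t K.t)) (K.s 9 K.t (K.s 1 K.t K.t))) (K.s 35 (K.s 20 K.t (K.s 5 K.t K.t)) (K.s 20 K.t (K.s 6 K.t K.t)))) (K.s 65 (K.s 40 (K.s 5 K.t (K.s 9 K.t K.t)) (K.s 1 K.t (K.s 9 K.t K.t))) (K.s 15 (K.s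 3 K.t (K.s 6 K.t K.t)) (K.s 5 K.t (K.s 10 K.t K.t)))))) (K.s 229 (K.s 94 (K.s 37 (K.s 24 (K.s 10 K.t (K.s 10 K.t K.t)) (K.s 1 K.t (K.s 6 K.t K.t))) (K.s 28 (K.s 3 K.t (K.s 15 K.t K.t)) (K.s 2 K.t (K.s 18 K.t K.t)))) (K.s 45 (K.s 21 (K.s 16 K.t (K.s 2 K.t K.t)) (K.s 15 K.t (K.s 6 K.t K.t))) (K.s 36 (K.s 6 K.t (K.s 12 K.t K.t)) (K.s 36 K.t (K.s 9 K.t K.t))))) (K.s 144 (K.s 44 (K.s 36 (K.s 6 K.t (K.s 12 K.t K.t)) (K.s 1 K.t (K.s 1 K.t K.t))) (K.s 52 (K.s 31 K.t (K.s 6 K.t K.t)) (K.s 21 K.t (K.s 19 K.t K.t)))) (K.s 57 (K.s 36 (K.s 17 K.t (K.s 10 K.t K.t)) (K.s 6 K.t (K.s 12 K.t K.t))) (K.s 35 (K.s 24 K.t (K.s 1 K.t K.t)) (K.s 7 K.t (K.s 3 K.t K.t)))))))))) T.nil) T.nil) T.nil) T.nil) T.nil) T.nil) T.nil) T.nil) T.nil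

/-- part 1 of the values -/
noncomputable def t1 : T := T.nd (T.nd (T.nd (T.nd (T.nd (T.nd (T.nd (T.nd (T.nd (T.lf (K.s 8085 (K.s 6825 (K.s 6205 (K.s 5892 (K.s 5754 (K.s 5694 (K.s 5655 (K.s 5625 (K.s 5616 K.z K.t) (K.s 18 K.t K.t)) (K.s 6 K.t (K.s 9 K.t K.t))) (K.s 30 (K.s 11 K.t (K.s 10 K.t K.t)) (K.s 9 K.t (K.s 17 K.t K.t)))) (K.s 43 (K.s 21 (K.s 6 K.t (K.s 9 K.t K.t)) (K.s 3 K.t (K.s 18 K.t K.t))) (K.s 53 (K.s 3 K.t (K.s 20 K.t K.t)) (K.s 15 K.t (K.s 15 K.t K.t))))) (K.s 183 (K.s 52 (K.s 12 (K.s 3 K.t (K.s 5 K.t K.t)) (K.s 21 K.t (K.s 15 K.t K.t))) (K.s 60 (K.s 31 K.t (K.s 28 K.t K.t)) (K.s 44 K.t (K.s 24 K.t K.t)))) (K.s 72 (K.s 30 (K.s 8 K.t (K.s 7 K.t K.t)) (K.s 6 K.t (K.s 9 K.t K.t))) (K.s 27 (K.s 13 K.t (K.s 5 K.t K.t)) (K.s 14 K.t (K.s 13 K.t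 K.t)))))) (K.s 263 (K.s 100 (K.s 43 (K.s 23 (K.s 5 K.t (K.s 15 K.t K.t)) (K.s 7 K.t (K.s 2 K.t K.t))) (K.s 17 (K.s 2 K.t (K.s 5 K.t K.t)) (K.s 5 K.t (K.s 30 K.t K.t)))) (K.s 65 (K.s 23 (K.s 9 K.t (K.s 4 K.t K.t)) (K.s 8 K.t (K.s 9 K.t K.t))) (K.s 70 (K.s 56 K.t (K.s 9 K.t K.t)) (K.s 10 K.t (K.s 10 K.t K.t))))) (K.s 162 (K.s 81 (K.s 48 (K.s 12 K.t (K.s 16 K.t K.t)) (K.s 9 K.t (K.s 9 K.t K.t))) (K.s 51 (K.s 3 K.t (K.s 24 K.t K.t)) (K.s 12 K.t (K.s 3 K.t K.t)))) (K.s 86 (K.s 48 (K.s 12 K.t (K.s 18 K.t K.t)) (K.s 7 K.t (K.s 14 K.t K.t))) (K.s 49 (K.s 16 K.t (K.s 18 K.t K.t)) (K.s 12 K.t (K.s 27 K.t K.t))))))) (K.s 600 (K.s 325 (K.s 150 (K.s 87 (K.s 33 (K.s 6 K.t (K.s 9 K.t K.t)) (K.s 27 K.t (K.s 15 K.t K.t))) (K.s 48 (K.s 18 K.t (K.s 6 K.t K.t)) (K.s 10 K.t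 (K.s 2 K.t K.t)))) (K.s 72 (K.s 60 (K.s 25 K.t (K.s 20 K.t K.t)) (K.s 3 K.t (K.s 2 K.t K.t))) (K.s 63 (K.s 40 K.t (K.s 11 K.t K.t)) (K.s 18 K.t (K.s 12 K.t K.t))))) (K.s 140 (K.s 59 (K.s 32 (K.s 5 K.t (K.s 15 K.t K.t)) (K.s 18 K.t (K.s 2 K.t K.t))) (K.s 41 (K.s 6 K.t (K.s 30 K.t K.t)) (K.s 10 K.t (K.s 27 K.t K.t)))) (K.s 75 (K.s 47 (K.s 3 K.t (K.s 33 K.t K.t)) (K.s 7 K.t (K.s 6 K.t K.t))) (K.s 30 (K.s 6 K.t (K.s 9 K.t K.t)) (K.s 3 K.t (K.s 2 K.t K.t)))))) (K.s 315 (K.s 198 (K.s 93 (K.s 54 (K.s 27 K.t (K.s 23 K.t K.t)) (K.s 1 K.t (K.s 20 K.t K.t))) (K.s 57 (K.s 15 K.t (K.s 27 K.t K.t)) (K.s 15 K.t (K.s 15 K.t K.t)))) (K.s 42 (K.s 24 (K.s 2 K.t (K.s 19 K.t K.t)) (K.s 3 K.t (K.s 14 K.t K.t))) (K.s 30 (K.s 21 K.t (K.s 3 K.t K.t)) (K.s 27 K.t (K.s 13 K.t K.t)))))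 (K.s 171 (K.s 51 (K.s 30 (K.s 9 K.t (K.s 6 K.t K.t)) (K.s 6 K.t (K.s 9 K.t K.t))) (K.s 84 (K.s 9 K.t (K.s 30 K.t K.t)) (K.s 1 K.t (K.s 8 K.t K.t)))) (K.s 81 (K.s 39 (K.s 9 K.t (K.s 18 K.t K.t)) (K.s 6 K.t (K.s 30 K.t K.t))) (K.s 27 (K.s 3 K.t (K.s 15 K.t K.t)) (K.s 31 K.t (K.s 23 K.t K.t)))))))) (K.s 1320 (K.s 565 (K.s 277 (K.s 183 (K.s 70 (K.s 24 (K.s 15 K.t (K.s 6 K.t K.t)) (K.s 11 K.t (K.s 7 K.t K.t))) (K.s 35 (K.s 5 K.t (K.s 21 K.t K.t)) (K.s 27 K.t (K.s 33 K.t K.t)))) (K.s 57 (K.s 27 (K.s 12 K.t (K.s 3 K.t K.t)) (K.s 5 K.t (K.s 16 K.t K.t))) (K.s 18 (K.s 5 K.t (K.s 10 K.t K.t)) (K.s 9 K.t (K.s 8 K.t K.t))))) (K.s 125 (K.s 53 (K.s 20 (K.s 8 K.t (K.s 2 K.t K.t)) (K.s 3 K.t (K.s 15 K.t K.t))) (K.s 45 (K.s 9 K.t (K.s 18 K.t K.t)) (K.s 3 K.t (K.s 12 K.t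 K.t)))) (K.s 63 (K.s 23 (K.s 9 K.t (K.s 9 K.t K.t)) (K.s 4 K.t (K.s 11 K.t K.t))) (K.s 46 (K.s 10 K.t (K.s 20 K.t K.t)) (K.s 20 K.t (K.s 4 K.t K.t)))))) (K.s 282 (K.s 113 (K.s 79 (K.s 62 (K.s 20 K.t (K.s 24 K.t K.t)) (K.s 3 K.t (K.s 6 K.t K.t))) (K.s 19 (K.s 1 K.t (K.s 15 K.t K.t)) (K.s 2 K.t (K.s 7 K.t K.t)))) (K.s 75 (K.s 37 (K.s 12 K.t (K.s 15 K.t K.t)) (K.s 2 K.t (K.s 18 K.t K.t))) (K.s 45 (K.s 6 K.t (K.s 1 K.t K.t)) (K.s 7 K.t (K.s 20 K.t K.t))))) (K.s 264 (K.s 168 (K.s 98 (K.s 38 K.t (K.s 21 K.t K.t)) (K.s 36 K.t (K.s 6 K.t K.t))) (K.s 35 (K.s 8 K.t (K.s 4 K.t K.t)) (K.s 45 K.t (K.s 4 K.t K.t)))) (K.s 99 (K.s 38 (K.s 2 K.t (K.s 24 K.t K.t)) (K.s 9 K.t (K.s 39 K.t K.t))) (K.s 80 (K.s 20 K.t (K.s 30 K.t K.t)) (K.s 12 K.t (K.s 9 K.t K.t))))))) (K.s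 1935 (K.s 675 (K.s 315 (K.s 108 (K.s 72 (K.s 45 K.t (K.s 7 K.t K.t)) (K.s 23 K.t (K.s 4 K.t K.t))) (K.s 54 (K.s 36 K.t (K.s 6 K.t K.t)) (K.s 28 K.t (K.s 44 K.t K.t)))) (K.s 157 (K.s 111 (K.s 7 K.t (K.s 29 K.t K.t)) (K.s 24 K.t (K.s 15 K.t K.t))) (K.s 8 (K.s 1 K.t (K.s 4 K.t K.t)) (K.s 60 K.t (K.s 30 K.t K.t))))) (K.s 495 (K.s 270 (K.s 203 (K.s 18 K.t (K.s 177 K.t K.t)) (K.s 7 K.t (K.s 42 K.t K.t))) (K.s 60 (K.s 23 K.t (K.s 22 K.t K.t)) (K.s 90 K.t (K.s 30 K.t K.t)))) (K.s 441 (K.s 198 (K.s 126 K.t (K.s 9 K.t K.t)) (K.s 102 K.t (K.s 15 K.t K.t))) (K.s 226 (K.s 9 K.t (K.s 153 K.t K.t)) (K.s 8 K.t (K.s 69 K.t K.t)))))) (K.s 1200 (K.s 504 (K.s 243 (K.s 135 (K.s 45 K.t (K.s 12 K.t K.t)) (K.s 7 K.t (K.s 2 K.t K.t))) (K.s 198 (K.s 117 K.t (K.s 60 K.t K.t)) (K.s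 9 K.t (K.s 24 K.t K.t)))) (K.s 396 (K.s 329 (K.s 126 K.t (K.s 36 K.t K.t)) (K.s 7 K.t (K.s 24 K.t K.t))) (K.s 135 (K.s 45 K.t (K.s 69 K.t K.t)) (K.s 18 K.t (K.s 32 K.t K.t))))) (K.s 900 (K.s 330 (K.s 205 (K.s 11 K.t (K.s 49 K.t K.t)) (K.s 71 K.t (K.s 9 K.t K.t))) (K.s 339 (K.s 9 K.t (K.s 189 K.t K.t)) (K.s 111 K.t (K.s 78 K.t K.t)))) (K.s 222 (K.s 90 (K.s 15 K.t (K.s 42 K.t K.t)) (K.s 36 K.t (K.s 87 K.t K.t))) (K.s 363 (K.s 33 K.t (K.s 17 K.t K.t)) (K.s 102 K.t (K.s 168 K.t K.t)))))))))) T.nil) T.nil) T.nil) T.nil) T.nil) T.nil) T.nil) T.nil) T.nil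

/-- part 2 of the values -/
noncomputable def t2 : T := T.nd (T.nd (T.nd (T.nd (T.nd (T.nd (T.nd (T.nd (T.nd T.nil (T.lf (K.s 5737 (K.s 3217 (K.s 1697 (K.s 877 (K.s 427 (K.s 202 (K.s 115 (K.s 40 (K.s 22 K.z K.t) (K.s 27 K.t K.t)) (K.s 30 K.t (K.s 40 K.t K.t))) (K.s 110 (K.s 18 K.t (K.s 42 K.t K.t)) (K.s 85 (K.s 70 K.t K.t) (K.s 12 K.t K.t)))) (K.s 234 (K.s 180 (K.s 45 K.t (K.s 45 K.t K.t)) (K.s 30 (K.s 25 K.t K.t) (K.s 15 K.t K.t))) (K.s 81 (K.s 26 K.t (K.s 22 K.t K.t)) (K.s 108 (K.s 13 K.t K.t) (K.s 21 K.t K.t))))) (K.s 435 (K.s 192 (K.s 96 (K.s 15 K.t (K.s 66 K.t K.t)) (K.s 39 K.t (K.s 27 K.t K.t))) (K.s 51 (K.s 3 K.t (K.s 39 K.t K.t)) (K.s 107 (K.s 12 K.t K.t) (K.s 55 K.t K.t)))) (K.s 150 (K.s 78 (K.s 60 K.t (K.s 15 K.t K.t)) (K.s 12 (K.s 9 K.t K.t)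 (K.s 15 K.t K.t))) (K.s 90 (K.s 50 K.t (K.s 25 K.t K.t)) (K.s 105 (K.s 81 K.t K.t) (K.s 30 K.t K.t)))))) (K.s 815 (K.s 441 (K.s 200 (K.s 95 (K.s 35 K.t (K.s 27 K.t K.t)) (K.s 30 K.t (K.s 15 K.t K.t))) (K.s 115 (K.s 6 K.t (K.s 81 K.t K.t)) (K.s 53 (K.s 26 K.t K.t) (K.s 27 K.t K.t)))) (K.s 221 (K.s 89 (K.s 44 K.t (K.s 5 K.t K.t)) (K.s 65 (K.s 30 K.t K.t) (K.s 16 K.t K.t))) (K.s 57 (K.s 3 K.t (K.s 3 K.t K.t)) (K.s 9 (K.s 6 K.t K.t) (K.s 72 K.t K.t))))) (K.s 300 (K.s 111 (K.s 66 (K.s 12 K.t (K.s 33 K.t K.t)) (K.s 9 K.t (K.s 27 K.t K.t))) (K.s 72 (K.s 45 K.t (K.s 18 K.t K.t)) (K.s 72 (K.s 27 K.t K.t) (K.s 27 K.t K.t)))) (K.s 225 (K.s 166 (K.s 54 K.t (K.s 75 K.t K.t)) (K.s 35 (K.s 9 K.t K.t) (K.s 4 K.t K.t))) (K.s 90 (K.s 18 K.t (K.s 63 K.t K.t)) (K.s 45 (K.s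 35 K.t K.t) (K.s 6 K.t K.t))))))) (K.s 1287 (K.s 603 (K.s 333 (K.s 171 (K.s 99 (K.s 20 K.t (K.s 70 K.t K.t)) (K.s 18 K.t (K.s 15 K.t K.t))) (K.s 54 (K.s 24 K.t (K.s 3 K.t K.t)) (K.s 45 (K.s 15 K.t K.t) (K.s 3 K.t K.t)))) (K.s 135 (K.s 30 (K.s 9 K.t (K.s 3 K.t K.t)) (K.s 42 (K.s 27 K.t K.t) (K.s 36 K.t K.t))) (K.s 70 (K.s 27 K.t (K.s 36 K.t K.t)) (K.s 47 (K.s 32 K.t K.t) (K.s 9 K.t K.t))))) (K.s 399 (K.s 177 (K.s 117 (K.s 27 K.t (K.s 81 K.t K.t)) (K.s 18 K.t (K.s 32 K.t K.t))) (K.s 66 (K.s 12 K.t (K.s 27 K.t K.t)) (K.s 93 (K.s 49 K.t K.t) (K.s 51 K.t K.t)))) (K.s 168 (K.s 33 (K.s 18 K.t (K.s 1 K.t K.t)) (K.s 54 (K.s 42 K.t K.t) (K.s 6 K.t K.t))) (K.s 51 (K.s 18 K.t (K.s 22 K.t K.t)) (K.s 45 (K.s 24 K.t K.t) (K.s 4 K.t K.t)))))) (K.s 540 (K.s 333 (K.s 153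 (K.s 54 (K.s 13 K.t (K.s 2 K.t K.t)) (K.s 9 K.t (K.s 45 K.t K.t))) (K.s 81 (K.s 5 K.t (K.s 73 K.t K.t)) (K.s 24 (K.s 9 K.t K.t) (K.s 57 K.t K.t)))) (K.s 119 (K.s 30 (K.s 9 K.t (K.s 9 K.t K.t)) (K.s 54 (K.s 33 K.t K.t) (K.s 6 K.t K.t))) (K.s 43 (K.s 7 K.t (K.s 24 K.t K.t)) (K.s 9 (K.s 3 K.t K.t) (K.s 24 K.t K.t))))) (K.s 318 (K.s 123 (K.s 43 (K.s 18 K.t (K.s 9 K.t K.t)) (K.s 38 (K.s 2 K.t K.t) (K.s 12 K.t K.t))) (K.s 125 (K.s 30 K.t (K.s 27 K.t K.t)) (K.s 40 (K.s 13 K.t K.t) (K.s 19 K.t K.t)))) (K.s 159 (K.s 75 (K.s 30 K.t (K.s 15 K.t K.t)) (K.s 30 (K.s 12 K.t K.t) (K.s 45 K.t K.t))) (K.s 126 (K.s 36 K.t (K.s 25 K.t K.t)) (K.s 45 (K.s 40 K.t K.t) (K.s 18 K.t K.t)))))))) (K.s 2715 (K.s 1200 (K.s 615 (K.s 262 (K.s 105 (K.s 75 (K.s 27 K.t (K.s 27 K.t K.t))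 (K.s 15 K.t (K.s 3 K.t K.t))) (K.s 66 (K.s 30 K.t (K.s 18 K.t K.t)) (K.s 45 (K.s 24 K.t K.t) (K.s 36 K.t K.t)))) (K.s 197 (K.s 143 (K.s 38 K.t (K.s 51 K.t K.t)) (K.s 20 (K.s 18 K.t K.t) (K.s 25 K.t K.t))) (K.s 81 (K.s 51 K.t (K.s 21 K.t K.t)) (K.s 9 (K.s 5 K.t K.t) (K.s 12 K.t K.t))))) (K.s 231 (K.s 99 (K.s 60 (K.s 1 K.t (K.s 32 K.t K.t)) (K.s 3 K.t (K.s 24 K.t K.t))) (K.s 69 (K.s 6 K.t (K.s 30 K.t K.t)) (K.s 30 (K.s 27 K.t K.t) (K.s 12 K.t K.t)))) (K.s 261 (K.s 21 (K.s 1 K.t (K.s 13 K.t K.t)) (K.s 63 (K.s 33 K.t K.t) (K.s 15 K.t K.t))) (K.s 18 (K.s 12 K.t (K.s 2 K.t K.t)) (K.s 54 (K.s 15 K.t K.t) (K.s 9 K.t K.t)))))) (K.s 801 (K.s 402 (K.s 231 (K.s 150 (K.s 53 K.t (K.s 88 K.t K.t)) (K.s 30 K.t (K.s 42 K.t K.t))) (K.s 108 (K.s 59 K.t (K.s 22 K.t K.t))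 (K.s 36 (K.s 11 K.t K.t) (K.s 6 K.t K.t)))) (K.s 153 (K.s 54 (K.s 3 K.t (K.s 6 K.t K.t)) (K.s 18 (K.s 9 K.t K.t) (K.s 54 K.t K.t))) (K.s 81 (K.s 15 K.t (K.s 39 K.t K.t)) (K.s 81 (K.s 54 K.t K.t) (K.s 9 K.t K.t))))) (K.s 402 (K.s 189 (K.s 74 (K.s 24 K.t (K.s 9 K.t K.t)) (K.s 67 K.t (K.s 18 K.t K.t))) (K.s 60 (K.s 35 K.t (K.s 7 K.t K.t)) (K.s 75 (K.s 45 K.t K.t) (K.s 30 K.t K.t)))) (K.s 162 (K.s 63 (K.s 27 K.t (K.s 20 K.t K.t)) (K.s 69 (K.s 36 K.t K.t) (K.s 15 K.t K.t))) (K.s 78 (K.s 6 K.t (K.s 39 K.t K.t)) (K.s 51 (K.s 30 K.t K.t) (K.s 6 K.t K.t))))))) (K.s 1875 (K.s 660 (K.s 320 (K.s 161 (K.s 39 (K.s 23 K.t (K.s 7 K.t K.t)) (K.s 81 K.t (K.s 27 K.t K.t))) (K.s 64 (K.s 27 K.t (K.s 22 K.t K.t)) (K.s 30 (K.s 10 K.t K.t) (K.s 39 K.t K.t)))) (K.s 205 (K.s 70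 (K.s 16 K.t (K.s 9 K.t K.t)) (K.s 75 (K.s 36 K.t K.t) (K.s 18 K.t K.t))) (K.s 85 (K.s 15 K.t (K.s 15 K.t K.t)) (K.s 25 (K.s 5 K.t K.t) (K.s 7 K.t K.t))))) (K.s 423 (K.s 180 (K.s 75 (K.s 45 K.t (K.s 27 K.t K.t)) (K.s 35 K.t (K.s 25 K.t K.t))) (K.s 70 (K.s 45 K.t (K.s 18 K.t K.t)) (K.s 74 (K.s 5 K.t K.t) (K.s 81 K.t K.t)))) (K.s 282 (K.s 72 (K.s 27 K.t (K.s 35 K.t K.t)) (K.s 45 (K.s 6 K.t K.t) (K.s 108 K.t K.t))) (K.s 147 (K.s 15 K.t (K.s 90 K.t K.t)) (K.s 228 (K.s 84 K.t K.t) (K.s 45 K.t K.t)))))) (K.s 2160 (K.s 1080 (K.s 441 (K.s 162 (K.s 105 K.t (K.s 30 K.t K.t)) (K.s 54 K.t (K.s 144 K.t K.t))) (K.s 207 (K.s 9 K.t (K.s 90 K.t K.t)) (K.s 162 (K.s 27 K.t K.t) (K.s 216 K.t K.t)))) (K.s 405 (K.s 135 (K.s 27 K.t (K.s 66 K.t K.t)) (K.s 99 (K.s 77 K.t K.t)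 (K.s 146 K.t K.t))) (K.s 375 (K.s 77 K.t (K.s 238 K.t K.t)) (K.s 201 (K.s 18 K.t K.t) (K.s 54 K.t K.t))))) (K.s 1026 (K.s 459 (K.s 207 (K.s 27 K.t (K.s 63 K.t K.t)) (K.s 183 (K.s 168 K.t K.t) (K.s 60 K.t K.t))) (K.s 270 (K.s 216 K.t (K.s 36 K.t K.t)) (K.s 234 (K.s 171 K.t K.t) (K.s 50 K.t K.t)))) (K.s 594 (K.s 117 (K.s 84 K.t (K.s 15 K.t K.t)) (K.s 261 (K.s 212 K.t K.t) (K.s 14 K.t K.t))) (K.s 190 (K.s 45 K.t (K.s 68 K.t K.t)) (K.s 336 (K.s 161 K.t K.t) (K.s 14 K.t K.t))))))))))) T.nil) T.nil) T.nil) T.nil) T.nil) T.nil) T.nil) T.nil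

/-- part 3 of the values -/
noncomputable def t3 : T := T.nd (T.nd (T.nd (T.nd (T.nd (T.nd (T.nd (T.nd T.nil (T.nd (T.lf (K.s 5771 (K.s 3001 (K.s 1856 (K.s 911 (K.s 371 (K.s 173 (K.s 128 (K.s 89 (K.s 41 K.z K.t) K.t) (K.s 33 K.t K.t)) (K.s 90 (K.s 68 K.t K.t) (K.s 78 K.t (K.s 26 K.t K.t)))) (K.s 195 (K.s 105 (K.s 33 K.t K.t) (K.s 75 K.t K.t)) (K.s 91 (K.s 48 K.t K.t) (K.s 11 K.t (K.s 198 K.t K.t))))) (K.s 705 (K.s 459 (K.s 270 (K.s 135 K.t K.t) (K.s 126 K.t K.t)) (K.s 108 (K.s 90 K.t K.t) (K.s 18 K.t (K.s 63 K.t K.t)))) (K.s 165 (K.s 90 (K.s 54 K.t K.t) (K.s 51 K.t (K.s 19 K.t K.t))) (K.s 48 (K.s 21 K.t K.t) (K.s 18 K.t (K.s 6 K.t K.t)))))) (K.s 495 (K.s 270 (K.s 90 (K.s 29 (K.s 18 K.t K.t) (K.s 16 K.t K.t)) (K.s 75 (K.s 72 K.t K.t) (K.s 6 K.t (K.s 54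 K.t K.t)))) (K.s 126 (K.s 30 (K.s 9 K.t K.t) (K.s 75 K.t K.t)) (K.s 63 (K.s 54 K.t K.t) (K.s 21 K.t (K.s 6 K.t K.t))))) (K.s 345 (K.s 121 (K.s 99 (K.s 18 K.t K.t) (K.s 11 K.t K.t)) (K.s 59 (K.s 53 K.t K.t) (K.s 85 K.t (K.s 77 K.t K.t)))) (K.s 132 (K.s 51 (K.s 18 K.t K.t) (K.s 9 K.t (K.s 25 K.t K.t))) (K.s 108 (K.s 18 K.t K.t) (K.s 45 K.t (K.s 15 K.t K.t))))))) (K.s 1474 (K.s 862 (K.s 583 (K.s 280 (K.s 160 (K.s 97 K.t K.t) (K.s 90 K.t K.t)) (K.s 75 (K.s 60 K.t K.t) (K.s 30 K.t (K.s 36 K.t K.t)))) (K.s 90 (K.s 72 (K.s 47 K.t K.t) (K.s 3 K.t K.t)) (K.s 72 (K.s 57 K.t K.t) (K.s 60 K.t (K.s 21 K.t K.t))))) (K.s 255 (K.s 168 (K.s 72 (K.s 18 K.t K.t) (K.s 81 K.t K.t)) (K.s 48 (K.s 36 K.t K.t) (K.s 27 K.t (K.s 5 K.t K.t)))) (K.s 195 (K.s 108 (K.s 33 K.t K.t)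 (K.s 39 K.t (K.s 36 K.t K.t))) (K.s 81 (K.s 18 K.t K.t) (K.s 27 K.t (K.s 27 K.t K.t)))))) (K.s 801 (K.s 381 (K.s 186 (K.s 81 (K.s 21 K.t K.t) (K.s 75 K.t K.t)) (K.s 48 (K.s 30 K.t K.t) (K.s 18 K.t (K.s 99 K.t K.t)))) (K.s 231 (K.s 36 (K.s 15 K.t K.t) (K.s 24 K.t (K.s 45 K.t K.t))) (K.s 36 (K.s 14 K.t K.t) (K.s 33 K.t (K.s 75 K.t K.t))))) (K.s 210 (K.s 90 (K.s 45 (K.s 9 K.t K.t) (K.s 18 K.t K.t)) (K.s 54 (K.s 15 K.t K.t) (K.s 9 K.t (K.s 27 K.t K.t)))) (K.s 120 (K.s 51 (K.s 42 K.t K.t) (K.s 54 K.t (K.s 5 K.t K.t))) (K.s 84 (K.s 72 K.t K.t) (K.s 27 K.t (K.s 27 K.t K.t)))))))) (K.s 2580 (K.s 1431 (K.s 513 (K.s 225 (K.s 144 (K.s 36 (K.s 30 K.t K.t) (K.s 99 K.t K.t)) (K.s 36 (K.s 33 K.t K.t) (K.s 5 K.t (K.s 1 K.t K.t)))) (K.s 153 (K.s 99 (K.s 18 K.t K.t) (K.s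 21 K.t K.t)) (K.s 72 (K.s 9 K.t K.t) (K.s 9 K.t (K.s 48 K.t K.t))))) (K.s 459 (K.s 195 (K.s 102 (K.s 27 K.t K.t) (K.s 60 K.t K.t)) (K.s 87 (K.s 57 K.t K.t) (K.s 15 K.t (K.s 135 K.t K.t)))) (K.s 208 (K.s 63 (K.s 36 K.t K.t) (K.s 45 K.t (K.s 70 K.t K.t))) (K.s 80 (K.s 35 K.t K.t) (K.s 45 K.t (K.s 48 K.t K.t)))))) (K.s 699 (K.s 306 (K.s 99 (K.s 54 (K.s 27 K.t K.t) (K.s 27 K.t K.t)) (K.s 105 (K.s 9 K.t K.t) (K.s 66 K.t (K.s 9 K.t K.t)))) (K.s 198 (K.s 123 (K.s 99 K.t K.t) (K.s 3 K.t (K.s 42 K.t K.t))) (K.s 45 (K.s 6 K.t K.t) (K.s 45 K.t (K.s 7 K.t K.t))))) (K.s 126 (K.s 55 (K.s 30 (K.s 3 K.t K.t) (K.s 12 K.t K.t)) (K.s 5 (K.s 2 K.t K.t) (K.s 24 K.t (K.s 31 K.t K.t)))) (K.s 120 (K.s 39 (K.s 21 K.t K.t) (K.s 24 K.t (K.s 3 K.t K.t))) (K.s 54 (K.s 9 K.t K.t)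 (K.s 134 K.t (K.s 1 K.t K.t))))))) (K.s 1090 (K.s 453 (K.s 240 (K.s 94 (K.s 66 (K.s 57 K.t K.t) (K.s 9 K.t K.t)) (K.s 44 (K.s 23 K.t K.t) (K.s 42 K.t (K.s 21 K.t K.t)))) (K.s 129 (K.s 18 (K.s 15 K.t K.t) (K.s 78 K.t K.t)) (K.s 48 (K.s 21 K.t K.t) (K.s 13 K.t (K.s 5 K.t K.t))))) (K.s 312 (K.s 126 (K.s 102 (K.s 57 K.t K.t) (K.s 6 K.t K.t)) (K.s 84 (K.s 21 K.t K.t) (K.s 37 K.t (K.s 5 K.t K.t)))) (K.s 207 (K.s 65 (K.s 3 K.t K.t) (K.s 10 K.t (K.s 90 K.t K.t))) (K.s 76 (K.s 48 K.t K.t) (K.s 8 K.t (K.s 9 K.t K.t)))))) (K.s 2282 (K.s 812 (K.s 185 (K.s 56 (K.s 35 K.t K.t) (K.s 9 K.t K.t)) (K.s 60 (K.s 33 K.t K.t) (K.s 106 K.t (K.s 269 K.t K.t)))) (K.s 1107 (K.s 78 (K.s 18 K.t K.t) (K.s 435 K.t (K.s 355 K.t K.t))) (K.s 66 (K.s 48 K.t K.t) (K.s 6 K.t (K.s 249 K.t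 K.t))))) (K.s 933 (K.s 483 (K.s 33 (K.s 6 K.t K.t) (K.s 9 K.t K.t)) (K.s 144 (K.s 9 K.t K.t) (K.s 66 K.t (K.s 195 K.t K.t)))) (K.s 810 (K.s 243 (K.s 27 K.t K.t) (K.s 417 K.t (K.s 90 K.t K.t))) (K.s 171 (K.s 161 K.t K.t) (K.s 369 K.t (K.s 499 K.t K.t)))))))))) (T.lf (K.s 5939 (K.s 3777 (K.s 2058 (K.s 1014 (K.s 593 (K.s 267 (K.s 123 (K.s 72 (K.s 60 K.z K.t) K.t) (K.s 99 K.t K.t)) (K.s 36 (K.s 21 K.t K.t) (K.s 135 K.t (K.s 125 K.t K.t)))) (K.s 250 (K.s 196 (K.s 88 K.t K.t) (K.s 4 K.t K.t)) (K.s 102 (K.s 72 K.t K.t) (K.s 3 K.t (K.s 33 K.t K.t))))) (K.s 504 (K.s 261 (K.s 96 (K.s 18 K.t K.t) (K.s 3 K.t K.t)) (K.s 63 (K.s 18 K.t K.t) (K.s 6 K.t (K.s 99 K.t K.t)))) (K.s 285 (K.s 135 (K.s 81 K.t K.t) (K.s 145 K.t K.t)) (K.s 165 (K.s 39 K.t K.t) (K.s 36 K.t (K.s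 9 K.t K.t)))))) (K.s 1095 (K.s 540 (K.s 135 (K.s 108 (K.s 22 K.t K.t) (K.s 12 K.t K.t)) (K.s 150 (K.s 90 K.t K.t) (K.s 66 K.t (K.s 126 K.t K.t)))) (K.s 270 (K.s 108 (K.s 63 K.t K.t) (K.s 72 K.t K.t)) (K.s 126 (K.s 27 K.t K.t) (K.s 27 K.t (K.s 72 K.t K.t))))) (K.s 340 (K.s 180 (K.s 21 (K.s 3 K.t K.t) (K.s 51 K.t K.t)) (K.s 75 (K.s 30 K.t K.t) (K.s 72 K.t (K.s 9 K.t K.t)))) (K.s 89 (K.s 50 (K.s 5 K.t K.t) (K.s 15 K.t K.t)) (K.s 123 (K.s 31 K.t K.t) (K.s 9 K.t (K.s 39 K.t K.t))))))) (K.s 1152 (K.s 711 (K.s 306 (K.s 144 (K.s 81 (K.s 9 K.t K.t) (K.s 60 K.t K.t)) (K.s 63 (K.s 27 K.t K.t) (K.s 9 K.t (K.s 46 K.t K.t)))) (K.s 135 (K.s 90 (K.s 27 K.t K.t) (K.s 18 K.t K.t)) (K.s 165 (K.s 153 K.t K.t) (K.s 60 K.t (K.s 24 K.t K.t))))) (K.s 240 (K.s 162 (K.s 63 (K.s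 45 K.t K.t) (K.s 42 K.t K.t)) (K.s 27 (K.s 18 K.t K.t) (K.s 21 K.t (K.s 15 K.t K.t)))) (K.s 111 (K.s 30 (K.s 20 K.t K.t) (K.s 18 K.t K.t)) (K.s 69 (K.s 54 K.t K.t) (K.s 3 K.t (K.s 9 K.t K.t)))))) (K.s 474 (K.s 294 (K.s 189 (K.s 54 (K.s 45 K.t K.t) (K.s 72 K.t K.t)) (K.s 18 (K.s 15 K.t K.t) (K.s 27 K.t (K.s 18 K.t K.t)))) (K.s 30 (K.s 21 (K.s 12 K.t K.t) (K.s 4 K.t K.t)) (K.s 60 (K.s 15 K.t K.t) (K.s 30 K.t (K.s 33 K.t K.t))))) (K.s 240 (K.s 75 (K.s 30 (K.s 3 K.t K.t) (K.s 42 K.t K.t)) (K.s 90 (K.s 36 K.t K.t) (K.s 18 K.t (K.s 36 K.t K.t)))) (K.s 165 (K.s 60 (K.s 30 K.t K.t) (K.s 75 K.t K.t)) (K.s 46 (K.s 30 K.t K.t) (K.s 38 K.t (K.s 30 K.t K.t)))))))) (K.s 2653 (K.s 1279 (K.s 729 (K.s 322 (K.s 169 (K.s 124 (K.s 88 K.t K.t) (K.s 30 K.t K.t)) (K.s 90 (K.s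 60 K.t K.t) (K.s 30 K.t (K.s 15 K.t K.t)))) (K.s 144 (K.s 27 (K.s 24 K.t K.t) (K.s 90 K.t K.t)) (K.s 98 (K.s 63 K.t K.t) (K.s 1 K.t (K.s 144 K.t K.t))))) (K.s 250 (K.s 110 (K.s 49 (K.s 25 K.t K.t) (K.s 39 K.t K.t)) (K.s 65 (K.s 38 K.t K.t) (K.s 3 K.t (K.s 18 K.t K.t)))) (K.s 135 (K.s 75 (K.s 27 K.t K.t) (K.s 33 K.t K.t)) (K.s 54 (K.s 18 K.t K.t) (K.s 27 K.t (K.s 54 K.t K.t)))))) (K.s 609 (K.s 330 (K.s 195 (K.s 51 (K.s 33 K.t K.t) (K.s 96 K.t K.t)) (K.s 45 (K.s 18 K.t K.t) (K.s 45 K.t (K.s 9 K.t K.t)))) (K.s 159 (K.s 99 (K.s 45 K.t K.t) (K.s 54 K.t K.t)) (K.s 57 (K.s 36 K.t K.t) (K.s 6 K.t (K.s 39 K.t K.t))))) (K.s 366 (K.s 171 (K.s 90 (K.s 73 K.t K.t) (K.s 15 K.t K.t)) (K.s 81 (K.s 45 K.t K.t) (K.s 54 K.t (K.s 15 K.t K.t)))) (K.s 150 (K.s 48 (K.s 30 K.t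 K.t) (K.s 27 K.t K.t)) (K.s 114 (K.s 33 K.t K.t) (K.s 15 K.t (K.s 66 K.t K.t))))))) (K.s 1251 (K.s 621 (K.s 270 (K.s 176 (K.s 54 (K.s 16 K.t K.t) (K.s 72 K.t K.t)) (K.s 46 (K.s 40 K.t K.t) (K.s 21 K.t (K.s 2 K.t K.t)))) (K.s 207 (K.s 162 (K.s 36 K.t K.t) (K.s 9 K.t K.t)) (K.s 63 (K.s 27 K.t K.t) (K.s 11 K.t (K.s 22 K.t K.t))))) (K.s 231 (K.s 84 (K.s 27 (K.s 18 K.t K.t) (K.s 54 K.t K.t)) (K.s 36 (K.s 1 K.t K.t) (K.s 8 K.t (K.s 67 K.t K.t)))) (K.s 129 (K.s 60 (K.s 3 K.t K.t) (K.s 24 K.t K.t)) (K.s 153 (K.s 45 K.t K.t) (K.s 12 K.t (K.s 64 K.t K.t)))))) (K.s 2115 (K.s 1008 (K.s 504 (K.s 9 (K.s 3 K.t K.t) (K.s 171 K.t K.t)) (K.s 162 (K.s 114 K.t K.t) (K.s 9 K.t (K.s 50 K.t K.t)))) (K.s 387 (K.s 63 (K.s 42 K.t K.t) (K.s 294 K.t K.t)) (K.s 120 (K.s 75 K.t K.t)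 (K.s 60 K.t (K.s 90 K.t K.t))))) (K.s 1035 (K.s 180 (K.s 90 (K.s 27 K.t K.t) (K.s 66 K.t K.t)) (K.s 180 (K.s 15 K.t K.t) (K.s 15 K.t (K.s 170 K.t K.t)))) (K.s 1080 (K.s 126 (K.s 81 K.t K.t) (K.s 189 K.t (K.s 117 K.t K.t))) (K.s 54 (K.s 42 K.t K.t) (K.s 131 K.t (K.s 520 K.t K.t)))))))))))) T.nil) T.nil) T.nil) T.nil) T.nil) T.nil) T.nil

/-- part 4 of the values -/
noncomputable def t4 : T := T.nd (T.nd (T.nd (T.nd (T.nd (T.nd (T.nd T.nil (T.nd (T.nd (T.lf (K.s 5878 (K.s 3585 (K.s 1588 (K.s 856 (K.s 328 (K.s 208 (K.s 145 (K.s 91 K.z K.t) (K.s 48 K.t K.t)) (K.s 9 K.t (K.s 6 K.t K.t))) (K.s 240 (K.s 195 K.t (K.s 36 K.t K.t)) (K.s 135 K.t (K.s 125 K.t K.t)))) (K.s 312 (K.s 153 (K.s 72 K.t (K.s 21 K.t K.t)) (K.s 39 K.t (K.s 15 K.t K.t))) (K.s 309 (K.s 156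 K.t (K.s 39 K.t K.t)) (K.s 72 K.t (K.s 18 K.t K.t))))) (K.s 924 (K.s 303 (K.s 180 (K.s 15 K.t (K.s 27 K.t K.t)) (K.s 51 K.t (K.s 9 K.t K.t))) (K.s 387 (K.s 117 K.t (K.s 170 K.t K.t)) (K.s 150 K.t (K.s 75 K.t K.t)))) (K.s 630 (K.s 441 (K.s 66 K.t (K.s 340 K.t K.t)) (K.s 30 K.t (K.s 130 K.t K.t))) (K.s 351 (K.s 162 K.t (K.s 27 K.t K.t)) (K.s 75 (K.s 45 K.t K.t) (K.s 15 K.t K.t)))))) (K.s 1123 (K.s 783 (K.s 502 (K.s 268 (K.s 103 K.t (K.s 138 K.t K.t)) (K.s 25 K.t (K.s 20 K.t K.t))) (K.s 171 (K.s 42 K.t (K.s 99 K.t K.t)) (K.s 45 K.t (K.s 36 K.t K.t)))) (K.s 160 (K.s 91 (K.s 25 K.t (K.s 9 K.t K.t)) (K.s 6 K.t (K.s 27 K.t K.t))) (K.s 147 (K.s 45 K.t (K.s 27 K.t K.t)) (K.s 3 K.t (K.s 9 K.t K.t))))) (K.s 730 (K.s 360 (K.s 279 (K.s 96 K.t (K.s 39 K.t K.t)) (K.s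 45 K.t (K.s 21 K.t K.t))) (K.s 144 (K.s 90 K.t (K.s 15 K.t K.t)) (K.s 171 K.t (K.s 45 K.t K.t)))) (K.s 200 (K.s 98 (K.s 44 K.t (K.s 27 K.t K.t)) (K.s 27 K.t (K.s 15 K.t K.t))) (K.s 66 (K.s 15 K.t (K.s 27 K.t K.t)) (K.s 54 (K.s 9 K.t K.t) (K.s 84 K.t K.t))))))) (K.s 2695 (K.s 1260 (K.s 450 (K.s 288 (K.s 99 (K.s 45 K.t (K.s 21 K.t K.t)) (K.s 126 K.t (K.s 35 K.t K.t))) (K.s 87 (K.s 12 K.t (K.s 30 K.t K.t)) (K.s 25 K.t (K.s 35 K.t K.t)))) (K.s 378 (K.s 270 (K.s 180 K.t (K.s 54 K.t K.t)) (K.s 27 K.t (K.s 63 K.t K.t))) (K.s 96 (K.s 18 K.t (K.s 9 K.t K.t)) (K.s 255 K.t (K.s 36 K.t K.t))))) (K.s 540 (K.s 333 (K.s 243 (K.s 150 K.t (K.s 75 K.t K.t)) (K.s 45 K.t (K.s 27 K.t K.t))) (K.s 45 (K.s 24 K.t (K.s 3 K.t K.t)) (K.s 27 K.t (K.s 45 K.t K.t)))) (K.s 315 (K.s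 144 (K.s 40 K.t (K.s 30 K.t K.t)) (K.s 96 K.t (K.s 57 K.t K.t))) (K.s 330 (K.s 255 K.t (K.s 60 K.t K.t)) (K.s 57 (K.s 30 K.t K.t) (K.s 173 K.t K.t)))))) (K.s 1010 (K.s 680 (K.s 275 (K.s 95 (K.s 50 K.t (K.s 30 K.t K.t)) (K.s 78 K.t (K.s 57 K.t K.t))) (K.s 234 (K.s 105 K.t (K.s 90 K.t K.t)) (K.s 96 K.t (K.s 66 K.t K.t)))) (K.s 198 (K.s 75 (K.s 35 K.t (K.s 10 K.t K.t)) (K.s 51 K.t (K.s 54 K.t K.t))) (K.s 90 (K.s 48 K.t (K.s 6 K.t K.t)) (K.s 18 K.t (K.s 9 K.t K.t))))) (K.s 2400 (K.s 1470 (K.s 552 (K.s 120 K.t (K.s 211 K.t K.t)) (K.s 63 K.t (K.s 666 K.t K.t))) (K.s 270 (K.s 135 K.t (K.s 102 K.t K.t)) (K.s 147 K.t (K.s 303 K.t K.t)))) (K.s 930 (K.s 252 (K.s 165 K.t (K.s 3 K.t K.t)) (K.s 79 K.t (K.s 89 K.t K.t))) (K.s 498 (K.s 300 K.t (K.s 30 K.t K.t)) (K.s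 1059 (K.s 72 K.t K.t) (K.s 243 K.t K.t))))))))) (T.lf (K.s 6080 (K.s 3452 (K.s 1940 (K.s 1310 (K.s 716 (K.s 284 (K.s 230 (K.s 155 K.z K.t) K.t) (K.s 231 K.t (K.s 165 K.t K.t))) (K.s 459 (K.s 144 K.t (K.s 180 K.t K.t)) (K.s 90 K.t (K.s 36 K.t K.t)))) (K.s 495 (K.s 309 (K.s 225 K.t (K.s 60 K.t K.t)) (K.s 51 K.t (K.s 15 K.t K.t))) (K.s 108 (K.s 45 K.t (K.s 9 K.t K.t)) (K.s 1 K.t (K.s 20 K.t K.t))))) (K.s 765 (K.s 345 (K.s 204 (K.s 36 K.t (K.s 144 K.t K.t)) (K.s 21 K.t (K.s 72 K.t K.t))) (K.s 195 (K.s 48 K.t (K.s 138 K.t K.t)) (K.s 81 K.t (K.s 81 K.t K.t)))) (K.s 414 (K.s 195 (K.s 45 K.t (K.s 108 K.t K.t)) (K.s 147 K.t (K.s 9 K.t K.t))) (K.s 171 (K.s 21 K.t (K.s 42 K.t K.t)) (K.s 9 K.t (K.s 21 K.t K.t)))))) (K.s 1233 (K.s 408 (K.s 267 (K.s 60 (K.s 3 K.t (K.s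 24 K.t K.t)) (K.s 3 K.t (K.s 75 K.t K.t))) (K.s 93 (K.s 21 K.t (K.s 63 K.t K.t)) (K.s 28 K.t (K.s 5 K.t K.t)))) (K.s 315 (K.s 195 (K.s 15 K.t (K.s 72 K.t K.t)) (K.s 18 K.t (K.s 27 K.t K.t))) (K.s 168 (K.s 51 K.t (K.s 84 K.t K.t)) (K.s 117 K.t (K.s 180 K.t K.t))))) (K.s 765 (K.s 468 (K.s 225 (K.s 45 K.t (K.s 108 K.t K.t)) (K.s 27 K.t (K.s 198 K.t K.t))) (K.s 207 (K.s 27 K.t (K.s 135 K.t K.t)) (K.s 30 K.t (K.s 5 K.t K.t)))) (K.s 345 (K.s 216 (K.s 15 K.t (K.s 165 K.t K.t)) (K.s 39 K.t (K.s 60 K.t K.t))) (K.s 150 (K.s 87 K.t (K.s 18 K.t K.t)) (K.s 91 K.t (K.s 28 K.t K.t))))))) (K.s 2394 (K.s 1104 (K.s 510 (K.s 180 (K.s 69 (K.s 45 K.t K.t) (K.s 6 K.t (K.s 69 K.t K.t))) (K.s 189 (K.s 27 K.t (K.s 36 K.t K.t)) (K.s 21 K.t (K.s 60 K.t K.t)))) (K.s 237 (K.s 102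 (K.s 30 K.t (K.s 60 K.t K.t)) (K.s 81 K.t (K.s 27 K.t K.t))) (K.s 189 (K.s 63 K.t (K.s 63 K.t K.t)) (K.s 99 K.t (K.s 60 K.t K.t))))) (K.s 660 (K.s 356 (K.s 273 (K.s 219 K.t (K.s 42 K.t K.t)) (K.s 45 K.t (K.s 18 K.t K.t))) (K.s 171 (K.s 43 K.t (K.s 105 K.t K.t)) (K.s 25 K.t (K.s 54 K.t K.t)))) (K.s 411 (K.s 171 (K.s 9 K.t (K.s 117 K.t K.t)) (K.s 60 K.t (K.s 75 K.t K.t))) (K.s 85 (K.s 15 K.t (K.s 15 K.t K.t)) (K.s 95 K.t (K.s 30 K.t K.t)))))) (K.s 1611 (K.s 489 (K.s 162 (K.s 81 (K.s 3 K.t (K.s 33 K.t K.t)) (K.s 36 K.t (K.s 42 K.t K.t))) (K.s 194 (K.s 81 K.t (K.s 54 K.t K.t)) (K.s 105 K.t (K.s 25 K.t K.t)))) (K.s 762 (K.s 429 (K.s 42 K.t (K.s 90 K.t K.t)) (K.s 144 K.t (K.s 54 K.t K.t))) (K.s 117 (K.s 63 K.t (K.s 27 K.t K.t)) (K.s 9 K.t (K.s 69 K.t K.t)))))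 (K.s 2370 (K.s 1440 (K.s 645 (K.s 90 K.t (K.s 486 K.t K.t)) (K.s 180 K.t (K.s 165 K.t K.t))) (K.s 462 (K.s 189 K.t (K.s 162 K.t K.t)) (K.s 78 K.t (K.s 225 K.t K.t)))) (K.s 798 (K.s 204 (K.s 105 K.t (K.s 72 K.t K.t)) (K.s 407 K.t (K.s 52 K.t K.t))) (K.s 147 (K.s 18 K.t (K.s 54 K.t K.t)) (K.s 204 K.t (K.s 870 K.t K.t)))))))))) (T.nd (T.lf (K.s 5929 (K.s 3213 (K.s 1719 (K.s 1174 (K.s 669 (K.s 408 (K.s 364 (K.s 78 K.z K.t) (K.s 38 K.t K.t)) (K.s 51 K.t (K.s 84 K.t K.t))) (K.s 135 (K.s 45 K.t (K.s 70 K.t K.t)) (K.s 195 (K.s 180 K.t K.t) (K.s 160 K.t K.t)))) (K.s 215 (K.s 125 (K.s 62 K.t (K.s 36 K.t K.t)) (K.s 60 (K.s 33 K.t K.t) (K.s 10 K.t K.t))) (K.s 99 (K.s 9 K.t (K.s 9 K.t K.t)) (K.s 144 (K.s 96 K.t K.t) (K.s 24 K.t K.t))))) (K.s 903 (K.s 319 (K.s 174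 (K.s 140 K.t (K.s 25 K.t K.t)) (K.s 51 K.t (K.s 70 K.t K.t))) (K.s 491 (K.s 161 K.t (K.s 192 K.t K.t)) (K.s 30 (K.s 27 K.t K.t) (K.s 54 K.t K.t)))) (K.s 294 (K.s 132 (K.s 27 K.t (K.s 36 K.t K.t)) (K.s 129 (K.s 30 K.t K.t) (K.s 27 K.t K.t))) (K.s 138 (K.s 3 K.t (K.s 25 K.t K.t)) (K.s 102 (K.s 12 K.t K.t) (K.s 33 K.t K.t)))))) (K.s 1815 (K.s 1056 (K.s 741 (K.s 597 (K.s 66 K.t (K.s 400 K.t K.t)) (K.s 54 K.t (K.s 60 K.t K.t))) (K.s 180 (K.s 33 K.t (K.s 93 K.t K.t)) (K.s 90 (K.s 63 K.t K.t) (K.s 15 K.t K.t)))) (K.s 495 (K.s 369 (K.s 340 K.t (K.s 23 K.t K.t)) (K.s 63 (K.s 9 K.t K.t) (K.s 48 K.t K.t))) (K.s 126 (K.s 45 K.t (K.s 60 K.t K.t)) (K.s 14 (K.s 4 K.t K.t) (K.s 55 K.t K.t))))) (K.s 366 (K.s 121 (K.s 78 (K.s 6 K.t (K.s 60 K.t K.t)) (K.s 3 K.t (K.s 24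 K.t K.t))) (K.s 110 (K.s 35 K.t (K.s 30 K.t K.t)) (K.s 30 (K.s 27 K.t K.t) (K.s 87 K.t K.t)))) (K.s 252 (K.s 115 (K.s 63 K.t (K.s 27 K.t K.t)) (K.s 80 (K.s 5 K.t K.t) (K.s 30 K.t K.t))) (K.s 108 (K.s 63 K.t (K.s 9 K.t K.t)) (K.s 95 (K.s 66 K.t K.t) (K.s 5 K.t K.t))))))) (K.s 3056 (K.s 1607 (K.s 1013 (K.s 365 (K.s 102 (K.s 23 K.t (K.s 72 K.t K.t)) (K.s 9 K.t (K.s 191 K.t K.t))) (K.s 297 (K.s 135 K.t (K.s 117 K.t K.t)) (K.s 208 (K.s 198 K.t K.t) (K.s 35 K.t K.t)))) (K.s 261 (K.s 72 (K.s 27 K.t (K.s 15 K.t K.t)) (K.s 135 (K.s 18 K.t K.t) (K.s 12 K.t K.t))) (K.s 108 (K.s 36 K.t (K.s 45 K.t K.t)) (K.s 90 (K.s 63 K.t K.t) (K.s 72 K.t K.t))))) (K.s 756 (K.s 318 (K.s 103 (K.s 54 K.t (K.s 39 K.t K.t)) (K.s 95 K.t (K.s 75 K.t K.t))) (K.s 195 (K.s 60 K.t (K.s 105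 K.t K.t)) (K.s 135 (K.s 9 K.t K.t) (K.s 97 K.t K.t)))) (K.s 333 (K.s 135 (K.s 27 K.t (K.s 90 K.t K.t)) (K.s 99 (K.s 66 K.t K.t) (K.s 63 K.t K.t))) (K.s 153 (K.s 99 K.t (K.s 30 K.t K.t)) (K.s 63 (K.s 51 K.t K.t) (K.s 18 K.t K.t)))))) (K.s 1140 (K.s 459 (K.s 183 (K.s 72 (K.s 36 K.t (K.s 18 K.t K.t)) (K.s 27 K.t (K.s 45 K.t K.t))) (K.s 31 (K.s 6 K.t (K.s 21 K.t K.t)) (K.s 122 (K.s 65 K.t K.t) (K.s 42 K.t K.t)))) (K.s 346 (K.s 115 (K.s 23 K.t (K.s 22 K.t K.t)) (K.s 56 (K.s 50 K.t K.t) (K.s 136 K.t K.t))) (K.s 89 (K.s 11 K.t (K.s 45 K.t K.t)) (K.s 120 (K.s 60 K.t K.t) (K.s 48 K.t K.t))))) (K.s 1569 (K.s 624 (K.s 189 (K.s 84 K.t (K.s 99 K.t K.t)) (K.s 120 K.t (K.s 45 K.t K.t))) (K.s 585 (K.s 45 K.t (K.s 300 K.t K.t)) (K.s 117 (K.s 63 K.t K.t) (K.s 33 K.t K.t))))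 (K.s 1668 (K.s 654 (K.s 378 K.t (K.s 270 K.t K.t)) (K.s 390 (K.s 11 K.t K.t) (K.s 251 K.t K.t))) (K.s 159 (K.s 6 K.t (K.s 86 K.t K.t)) (K.s 588 (K.s 549 K.t K.t) (K.s 168 K.t K.t))))))))) (T.lf (K.s 5902 (K.s 3356 (K.s 1681 (K.s 961 (K.s 655 (K.s 574 (K.s 301 (K.s 259 K.z K.t) (K.s 156 K.t K.t)) (K.s 42 (K.s 22 K.t K.t) (K.s 30 K.t K.t))) (K.s 178 (K.s 66 K.t (K.s 75 K.t K.t)) (K.s 103 (K.s 20 K.t K.t) (K.s 10 K.t K.t)))) (K.s 270 (K.s 110 (K.s 12 K.t (K.s 6 K.t K.t)) (K.s 90 (K.s 28 K.t K.t) (K.s 1 K.t K.t))) (K.s 135 (K.s 27 K.t (K.s 58 K.t K.t)) (K.s 125 (K.s 81 K.t K.t) (K.s 98 K.t K.t))))) (K.s 675 (K.s 360 (K.s 90 (K.s 30 K.t (K.s 15 K.t K.t)) (K.s 182 (K.s 105 K.t K.t) (K.s 79 K.t K.t))) (K.s 225 (K.s 30 K.t (K.s 96 K.t K.t)) (K.s 34 (K.s 30 K.t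 K.t) (K.s 11 K.t K.t)))) (K.s 495 (K.s 333 (K.s 225 K.t (K.s 90 K.t K.t)) (K.s 66 (K.s 48 K.t K.t) (K.s 78 K.t K.t))) (K.s 325 (K.s 162 (K.s 54 K.t K.t) (K.s 18 K.t K.t)) (K.s 86 (K.s 2 K.t K.t) (K.s 19 K.t K.t)))))) (K.s 1439 (K.s 830 (K.s 467 (K.s 170 (K.s 80 K.t (K.s 65 K.t K.t)) (K.s 177 (K.s 147 K.t K.t) (K.s 48 K.t K.t))) (K.s 153 (K.s 123 K.t (K.s 9 K.t K.t)) (K.s 124 (K.s 45 K.t K.t) (K.s 20 K.t K.t)))) (K.s 355 (K.s 210 (K.s 15 K.t (K.s 45 K.t K.t)) (K.s 120 (K.s 21 K.t K.t) (K.s 9 K.t K.t))) (K.s 130 (K.s 65 K.t (K.s 63 K.t K.t)) (K.s 100 (K.s 65 K.t K.t) (K.s 6 K.t K.t))))) (K.s 612 (K.s 261 (K.s 126 (K.s 51 K.t (K.s 30 K.t K.t)) (K.s 35 (K.s 13 K.t K.t) (K.s 55 K.t K.t))) (K.s 135 (K.s 120 K.t (K.s 12 K.t K.t)) (K.s 105 (K.s 45 K.t K.t) (K.s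 39 K.t K.t)))) (K.s 207 (K.s 45 (K.s 9 K.t (K.s 30 K.t K.t)) (K.s 99 (K.s 39 K.t K.t) (K.s 10 K.t K.t))) (K.s 159 (K.s 112 (K.s 57 K.t K.t) (K.s 5 K.t K.t)) (K.s 48 (K.s 30 K.t K.t) (K.s 75 K.t K.t))))))) (K.s 2344 (K.s 1144 (K.s 429 (K.s 219 (K.s 126 (K.s 27 K.t (K.s 72 K.t K.t)) (K.s 33 (K.s 18 K.t K.t) (K.s 39 K.t K.t))) (K.s 105 (K.s 45 K.t (K.s 15 K.t K.t)) (K.s 70 (K.s 18 K.t K.t) (K.s 11 K.t K.t)))) (K.s 390 (K.s 165 (K.s 30 K.t (K.s 87 K.t K.t)) (K.s 153 (K.s 135 K.t K.t) (K.s 63 K.t K.t))) (K.s 234 (K.s 153 K.t (K.s 42 K.t K.t)) (K.s 66 (K.s 36 K.t K.t) (K.s 15 K.t K.t))))) (K.s 584 (K.s 314 (K.s 125 (K.s 11 K.t (K.s 87 K.t K.t)) (K.s 99 (K.s 27 K.t K.t) (K.s 66 K.t K.t))) (K.s 90 (K.s 36 K.t (K.s 45 K.t K.t)) (K.s 96 (K.s 36 K.t K.t) (K.s 75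 K.t K.t)))) (K.s 351 (K.s 135 (K.s 51 K.t (K.s 3 K.t K.t)) (K.s 117 (K.s 81 K.t K.t) (K.s 9 K.t K.t))) (K.s 132 (K.s 90 (K.s 27 K.t K.t) (K.s 30 K.t K.t)) (K.s 48 (K.s 3 K.t K.t) (K.s 15 K.t K.t)))))) (K.s 1400 (K.s 572 (K.s 380 (K.s 140 (K.s 5 K.t (K.s 60 K.t K.t)) (K.s 135 (K.s 81 K.t K.t) (K.s 54 K.t K.t))) (K.s 84 (K.s 30 K.t (K.s 45 K.t K.t)) (K.s 54 (K.s 27 K.t K.t) (K.s 42 K.t K.t)))) (K.s 303 (K.s 135 (K.s 54 K.t (K.s 21 K.t K.t)) (K.s 99 (K.s 18 K.t K.t) (K.s 24 K.t K.t))) (K.s 150 (K.s 75 (K.s 71 K.t K.t) (K.s 6 K.t K.t)) (K.s 150 (K.s 63 K.t K.t) (K.s 45 K.t K.t))))) (K.s 2187 (K.s 819 (K.s 235 (K.s 126 K.t (K.s 99 K.t K.t)) (K.s 395 (K.s 305 K.t K.t) (K.s 180 K.t K.t))) (K.s 882 (K.s 207 K.t (K.s 324 K.t K.t)) (K.s 429 (K.s 63 K.t K.t) (K.s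 5 K.t K.t)))) (K.s 1143 (K.s 438 (K.s 18 K.t (K.s 301 K.t K.t)) (K.s 483 (K.s 57 K.t K.t) (K.s 132 K.t K.t))) (K.s 945 (K.s 240 (K.s 81 K.t K.t) (K.s 11 K.t K.t)) (K.s 180 (K.s 135 K.t K.t) (K.s 216 K.t K.t)))))))))))) T.nil) T.nil) T.nil) T.nil) T.nil) T.nil

/-- part 5 of the values -/
noncomputable def t5 : T := T.nd (T.nd (T.nd (T.nd (T.nd (T.nd T.nil (T.nd (T.nd (T.nd (T.lf (K.s 6710 (K.s 3731 (K.s 1685 (K.s 689 (K.s 242 (K.s 104 (K.s 44 K.z K.t) (K.s 63 K.t K.t)) (K.s 69 K.t (K.s 288 K.t K.t))) (K.s 369 (K.s 264 K.t (K.s 69 K.t K.t)) (K.s 189 K.t (K.s 42 K.t K.t)))) (K.s 354 (K.s 183 (K.s 159 K.t (K.s 6 K.t K.t)) (K.s 81 K.t (K.s 63 K.t K.t))) (K.s 1044 (K.s 295 K.t (K.s 605 K.t K.t)) (K.s 216 K.t (K.s 225 K.t K.t))))) (K.s 1620 (K.s 758 (K.s 558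 (K.s 405 K.t (K.s 144 K.t K.t)) (K.s 75 K.t (K.s 15 K.t K.t))) (K.s 490 (K.s 160 K.t (K.s 171 K.t K.t)) (K.s 120 K.t (K.s 90 K.t K.t)))) (K.s 585 (K.s 81 (K.s 18 K.t (K.s 45 K.t K.t)) (K.s 45 K.t (K.s 117 K.t K.t))) (K.s 360 (K.s 18 K.t (K.s 288 K.t K.t)) (K.s 315 (K.s 108 K.t K.t) (K.s 63 K.t K.t)))))) (K.s 2204 (K.s 1071 (K.s 609 (K.s 54 (K.s 27 K.t (K.s 9 K.t K.t)) (K.s 225 K.t (K.s 225 K.t K.t))) (K.s 174 (K.s 111 K.t (K.s 9 K.t K.t)) (K.s 126 K.t (K.s 105 K.t K.t)))) (K.s 612 (K.s 383 (K.s 315 K.t (K.s 6 K.t K.t)) (K.s 22 K.t (K.s 171 K.t K.t))) (K.s 288 (K.s 36 K.t (K.s 135 K.t K.t)) (K.s 23 K.t (K.s 115 K.t K.t))))) (K.s 1285 (K.s 595 (K.s 133 (K.s 20 K.t (K.s 65 K.t K.t)) (K.s 317 K.t (K.s 109 K.t K.t))) (K.s 80 (K.s 3 K.t (K.s 60 K.t K.t)) (K.s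 115 K.t (K.s 57 K.t K.t)))) (K.s 2259 (K.s 579 (K.s 62 K.t (K.s 370 K.t K.t)) (K.s 81 K.t (K.s 1485 K.t K.t))) (K.s 1521 (K.s 1326 K.t (K.s 122 K.t K.t)) (K.s 405 (K.s 234 K.t K.t) (K.s 436 K.t K.t)))))))) (T.lf (K.s 6651 (K.s 3690 (K.s 1645 (K.s 1206 (K.s 720 (K.s 351 (K.s 216 K.z K.t) (K.s 180 K.t K.t)) (K.s 126 (K.s 54 K.t K.t) (K.s 90 K.t K.t))) (K.s 198 (K.s 135 K.t (K.s 60 K.t K.t)) (K.s 99 (K.s 87 K.t K.t) (K.s 54 K.t K.t)))) (K.s 1251 (K.s 556 (K.s 20 K.t (K.s 243 K.t K.t)) (K.s 292 (K.s 125 K.t K.t) (K.s 198 K.t K.t))) (K.s 299 (K.s 155 (K.s 65 K.t K.t) (K.s 63 K.t K.t)) (K.s 281 (K.s 6 K.t K.t) (K.s 205 K.t K.t))))) (K.s 1701 (K.s 891 (K.s 531 (K.s 81 K.t (K.s 405 K.t K.t)) (K.s 72 (K.s 45 K.t K.t) (K.s 18 K.t K.t))) (K.s 520 (K.s 395 (K.s 270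 K.t K.t) (K.s 91 K.t K.t)) (K.s 155 (K.s 50 K.t K.t) (K.s 9 K.t K.t)))) (K.s 540 (K.s 270 (K.s 135 K.t (K.s 45 K.t K.t)) (K.s 135 (K.s 81 K.t K.t) (K.s 90 K.t K.t))) (K.s 390 (K.s 215 (K.s 60 K.t K.t) (K.s 55 K.t K.t)) (K.s 123 (K.s 15 K.t K.t) (K.s 162 K.t K.t)))))) (K.s 2628 (K.s 1332 (K.s 690 (K.s 495 (K.s 171 K.t (K.s 34 K.t K.t)) (K.s 165 (K.s 135 K.t K.t) (K.s 24 K.t K.t))) (K.s 399 (K.s 102 K.t (K.s 81 K.t K.t)) (K.s 36 (K.s 11 K.t K.t) (K.s 45 K.t K.t)))) (K.s 747 (K.s 243 (K.s 65 K.t (K.s 88 K.t K.t)) (K.s 405 (K.s 180 K.t K.t) (K.s 55 K.t K.t))) (K.s 225 (K.s 151 (K.s 84 K.t K.t) (K.s 47 K.t K.t)) (K.s 111 (K.s 81 K.t K.t) (K.s 195 K.t K.t))))) (K.s 1920 (K.s 432 (K.s 87 (K.s 12 K.t (K.s 33 K.t K.t)) (K.s 111 (K.s 55 K.t K.t) (K.s 99 K.t K.t)))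 (K.s 909 (K.s 207 (K.s 75 K.t K.t) (K.s 693 K.t K.t)) (K.s 351 (K.s 133 K.t K.t) (K.s 135 K.t K.t)))) (K.s 1681 (K.s 996 (K.s 132 K.t (K.s 680 K.t K.t)) (K.s 396 (K.s 186 K.t K.t) (K.s 180 K.t K.t))) (K.s 818 (K.s 251 (K.s 221 K.t K.t) (K.s 549 K.t K.t)) (K.s 63 (K.s 30 K.t K.t) (K.s 724 K.t K.t))))))))) (T.nd (T.lf (K.s 6910 (K.s 3605 (K.s 2005 (K.s 1051 (K.s 124 (K.s 40 (K.s 25 K.z K.t) (K.s 66 K.t K.t)) (K.s 359 (K.s 306 K.t K.t) (K.s 325 K.t K.t))) (K.s 756 (K.s 574 (K.s 468 K.t K.t) (K.s 140 K.t K.t)) (K.s 84 (K.s 63 K.t K.t) (K.s 103 K.t K.t)))) (K.s 1020 (K.s 540 (K.s 315 (K.s 45 K.t K.t) (K.s 99 K.t K.t)) (K.s 165 (K.s 127 K.t K.t) (K.s 105 K.t K.t))) (K.s 285 (K.s 240 (K.s 21 K.t K.t) (K.s 5 K.t K.t)) (K.s 180 (K.s 12 K.t K.t) (K.s 18 K.t K.t)))))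 (K.s 1415 (K.s 520 (K.s 200 (K.s 29 (K.s 20 K.t K.t) (K.s 36 K.t K.t)) (K.s 81 (K.s 54 K.t K.t) (K.s 189 K.t K.t))) (K.s 517 (K.s 70 (K.s 31 K.t K.t) (K.s 375 K.t K.t)) (K.s 54 (K.s 45 K.t K.t) (K.s 46 K.t K.t)))) (K.s 1179 (K.s 840 (K.s 675 (K.s 570 K.t K.t) (K.s 105 K.t K.t)) (K.s 105 (K.s 78 K.t K.t) (K.s 165 K.t K.t))) (K.s 180 (K.s 111 (K.s 48 K.t K.t) (K.s 10 K.t K.t)) (K.s 336 (K.s 231 K.t K.t) (K.s 60 K.t K.t)))))) (K.s 2184 (K.s 1260 (K.s 324 (K.s 126 (K.s 48 K.t (K.s 15 K.t K.t)) (K.s 69 (K.s 36 K.t K.t) (K.s 48 K.t K.t))) (K.s 636 (K.s 131 (K.s 36 K.t K.t) (K.s 49 K.t K.t)) (K.s 93 (K.s 12 K.t K.t) (K.s 117 K.t K.t)))) (K.s 294 (K.s 99 (K.s 27 (K.s 9 K.t K.t) (K.s 36 K.t K.t)) (K.s 99 (K.s 90 K.t K.t) (K.s 27 K.t K.t))) (K.s 147 (K.s 63 (K.s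 21 K.t K.t) (K.s 63 K.t K.t)) (K.s 224 (K.s 162 K.t K.t) (K.s 10 K.t K.t))))) (K.s 1638 (K.s 246 (K.s 165 (K.s 108 (K.s 84 K.t K.t) (K.s 48 K.t K.t)) (K.s 39 (K.s 16 K.t K.t) (K.s 27 K.t K.t))) (K.s 594 (K.s 324 (K.s 135 K.t K.t) (K.s 66 K.t K.t)) (K.s 174 (K.s 126 K.t K.t) (K.s 312 K.t K.t)))) (K.s 3108 (K.s 1038 (K.s 552 (K.s 498 K.t K.t) (K.s 450 K.t K.t)) (K.s 900 (K.s 54 K.t K.t) (K.s 375 K.t K.t))) (K.s 570 (K.s 162 (K.s 105 K.t K.t) (K.s 27 K.t K.t)) (K.s 235 (K.s 60 K.t K.t) (K.s 182 K.t K.t)))))))) (T.lf (K.s 6857 (K.s 3602 (K.s 2039 (K.s 1082 (K.s 479 (K.s 227 (K.s 92 K.z K.t) (K.s 180 K.t K.t)) (K.s 234 K.t (K.s 54 K.t K.t))) (K.s 315 (K.s 90 K.t (K.s 93 K.t K.t)) (K.s 360 K.t (K.s 225 K.t K.t)))) (K.s 1068 (K.s 253 (K.s 15 K.t (K.s 117 K.t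 K.t)) (K.s 253 K.t (K.s 112 K.t K.t))) (K.s 243 (K.s 50 K.t (K.s 175 K.t K.t)) (K.s 207 K.t (K.s 30 K.t K.t))))) (K.s 1455 (K.s 675 (K.s 270 (K.s 135 K.t (K.s 75 K.t K.t)) (K.s 135 K.t (K.s 45 K.t K.t))) (K.s 585 (K.s 105 K.t (K.s 165 K.t K.t)) (K.s 167 K.t (K.s 13 K.t K.t)))) (K.s 750 (K.s 590 (K.s 30 K.t (K.s 540 K.t K.t)) (K.s 106 K.t (K.s 36 K.t K.t))) (K.s 326 (K.s 75 K.t (K.s 150 K.t K.t)) (K.s 574 (K.s 169 K.t K.t) (K.s 108 K.t K.t)))))) (K.s 2175 (K.s 1335 (K.s 660 (K.s 336 (K.s 66 K.t (K.s 123 K.t K.t)) (K.s 126 K.t (K.s 63 K.t K.t))) (K.s 515 (K.s 387 K.t (K.s 108 K.t K.t)) (K.s 79 K.t (K.s 45 K.t K.t)))) (K.s 480 (K.s 270 (K.s 135 K.t (K.s 84 K.t K.t)) (K.s 27 K.t (K.s 133 K.t K.t))) (K.s 78 (K.s 54 K.t (K.s 6 K.t K.t)) (K.s 207 K.t (K.s 45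 K.t K.t))))) (K.s 2412 (K.s 645 (K.s 375 (K.s 243 K.t (K.s 122 K.t K.t)) (K.s 54 K.t (K.s 14 K.t K.t))) (K.s 205 (K.s 162 K.t (K.s 21 K.t K.t)) (K.s 965 K.t (K.s 450 K.t K.t)))) (K.s 1842 (K.s 1035 (K.s 64 K.t (K.s 649 K.t K.t)) (K.s 48 K.t (K.s 305 K.t K.t))) (K.s 329 (K.s 123 K.t (K.s 75 K.t K.t)) (K.s 613 (K.s 58 K.t K.t) (K.s 609 K.t K.t)))))))))) T.nil)) T.nil) T.nil) T.nil) T.nil) T.nil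

/-- part 6 of the values -/
noncomputable def t6 : T := T.nd (T.nd (T.nd (T.nd (T.nd (T.nd T.nil (T.nd T.nil (T.nd (T.nd (T.lf (K.s 6036 (K.s 3222 (K.s 1377 (K.s 717 (K.s 177 (K.s 15 (K.s 12 K.z K.t) (K.s 102 K.t K.t)) (K.s 300 K.t (K.s 195 K.t K.t))) (K.s 270 (K.s 90 K.t (K.s 126 K.t K.t)) (K.s 135 K.t (K.s 210 K.t K.t)))) (K.s 1005 (K.s 465 (K.s 165 K.t (K.s 225 K.t K.t)) (K.s 195 K.t (K.s 255 K.t K.t))) (K.s 273 (K.s 63 K.t (K.s 108 K.t K.t)) (K.s 222 (K.s 87 K.t K.t) (K.s 135 K.t K.t))))) (K.s 1275 (K.s 420 (K.s 195 (K.s 105 K.t (K.s 63 K.t K.t)) (K.s 120 K.t (K.s 55 K.t K.t))) (K.s 621 (K.s 387 K.t (K.s 63 K.t K.t)) (K.s 9 K.t (K.s 190 K.t K.t)))) (K.s 945 (K.s 540 (K.s 135 K.t (K.s 60 K.t K.t)) (K.s 162 K.t (K.s 18 K.t K.t))) (K.s 300 (K.s 69 K.t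 (K.s 156 K.t K.t)) (K.s 105 (K.s 42 K.t K.t) (K.s 27 K.t K.t)))))) (K.s 2511 (K.s 1296 (K.s 651 (K.s 129 (K.s 36 K.t (K.s 45 K.t K.t)) (K.s 168 K.t (K.s 214 K.t K.t))) (K.s 231 (K.s 105 K.t (K.s 45 K.t K.t)) (K.s 324 K.t (K.s 63 K.t K.t)))) (K.s 633 (K.s 297 (K.s 60 K.t (K.s 210 K.t K.t)) (K.s 198 K.t (K.s 99 K.t K.t))) (K.s 312 (K.s 42 K.t (K.s 260 K.t K.t)) (K.s 111 (K.s 90 K.t K.t) (K.s 69 K.t K.t))))) (K.s 1215 (K.s 486 (K.s 378 (K.s 135 K.t (K.s 135 K.t K.t)) (K.s 2 K.t (K.s 43 K.t K.t))) (K.s 216 (K.s 9 K.t (K.s 18 K.t K.t)) (K.s 189 (K.s 162 K.t K.t) (K.s 39 K.t K.t)))) (K.s 2439 (K.s 1665 (K.s 81 K.t (K.s 1479 K.t K.t)) (K.s 90 K.t (K.s 432 K.t K.t))) (K.s 1143 (K.s 171 K.t (K.s 515 K.t K.t)) (K.s 588 (K.s 279 K.t K.t) (K.s 906 K.t K.t))))))))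 (T.lf (K.s 6778 (K.s 3615 (K.s 1639 (K.s 1009 (K.s 639 (K.s 451 (K.s 109 K.z K.t) (K.s 72 K.t K.t)) (K.s 10 K.t (K.s 216 K.t K.t))) (K.s 277 (K.s 105 K.t (K.s 165 K.t K.t)) (K.s 119 (K.s 23 K.t K.t) (K.s 189 K.t K.t)))) (K.s 1215 (K.s 540 (K.s 90 K.t (K.s 405 K.t K.t)) (K.s 360 (K.s 36 K.t K.t) (K.s 270 K.t K.t))) (K.s 198 (K.s 63 K.t (K.s 81 K.t K.t)) (K.s 177 (K.s 117 K.t K.t) (K.s 66 K.t K.t))))) (K.s 1489 (K.s 697 (K.s 214 (K.s 4 K.t (K.s 40 K.t K.t)) (K.s 75 K.t (K.s 210 K.t K.t))) (K.s 588 (K.s 198 K.t (K.s 108 K.t K.t)) (K.s 69 (K.s 24 K.t K.t) (K.s 81 K.t K.t)))) (K.s 950 (K.s 585 (K.s 495 K.t (K.s 12 K.t K.t)) (K.s 315 (K.s 225 K.t K.t) (K.s 45 K.t K.t))) (K.s 265 (K.s 90 K.t (K.s 148 K.t K.t)) (K.s 225 (K.s 201 K.t K.t) (K.s 153 K.t K.t))))))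 (K.s 2398 (K.s 1242 (K.s 866 (K.s 351 (K.s 276 K.t (K.s 5 K.t K.t)) (K.s 135 K.t (K.s 315 K.t K.t))) (K.s 148 (K.s 5 K.t (K.s 50 K.t K.t)) (K.s 39 (K.s 12 K.t K.t) (K.s 3 K.t K.t)))) (K.s 378 (K.s 252 (K.s 54 K.t (K.s 165 K.t K.t)) (K.s 63 (K.s 42 K.t K.t) (K.s 9 K.t K.t))) (K.s 486 (K.s 72 K.t (K.s 279 K.t K.t)) (K.s 18 (K.s 3 K.t K.t) (K.s 129 K.t K.t))))) (K.s 1571 (K.s 410 (K.s 53 (K.s 7 K.t (K.s 25 K.t K.t)) (K.s 149 (K.s 114 K.t K.t) (K.s 91 K.t K.t))) (K.s 243 (K.s 117 K.t (K.s 117 K.t K.t)) (K.s 459 (K.s 175 K.t K.t) (K.s 135 K.t K.t)))) (K.s 1485 (K.s 747 (K.s 297 K.t (K.s 255 K.t K.t)) (K.s 285 (K.s 60 K.t K.t) (K.s 21 K.t K.t))) (K.s 1062 (K.s 275 K.t (K.s 736 K.t K.t)) (K.s 1050 (K.s 735 K.t K.t) (K.s 55 K.t K.t))))))))) (T.nd (T.lf (K.s 7028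 (K.s 4022 (K.s 2576 (K.s 1817 (K.s 1148 (K.s 443 (K.s 119 K.z K.t) (K.s 159 K.t K.t)) (K.s 420 K.t (K.s 6 K.t K.t))) (K.s 498 (K.s 96 K.t (K.s 390 K.t K.t)) (K.s 163 K.t (K.s 50 K.t K.t)))) (K.s 861 (K.s 510 (K.s 147 K.t (K.s 360 K.t K.t)) (K.s 162 K.t (K.s 108 K.t K.t))) (K.s 336 (K.s 36 K.t (K.s 39 K.t K.t)) (K.s 96 K.t (K.s 99 K.t K.t))))) (K.s 1791 (K.s 846 (K.s 441 (K.s 126 K.t (K.s 180 K.t K.t)) (K.s 105 K.t (K.s 3 K.t K.t))) (K.s 270 (K.s 30 K.t (K.s 213 K.t K.t)) (K.s 335 K.t (K.s 142 K.t K.t)))) (K.s 450 (K.s 270 (K.s 60 K.t (K.s 48 K.t K.t)) (K.s 36 K.t (K.s 99 K.t K.t))) (K.s 90 (K.s 30 K.t (K.s 59 K.t K.t)) (K.s 180 K.t (K.s 306 K.t K.t)))))) (K.s 1965 (K.s 1125 (K.s 360 (K.s 189 (K.s 140 K.t (K.s 40 K.t K.t)) (K.s 81 K.t (K.s 36 K.t K.t)))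 (K.s 585 (K.s 260 K.t (K.s 55 K.t K.t)) (K.s 27 K.t (K.s 54 K.t K.t)))) (K.s 585 (K.s 345 (K.s 18 K.t (K.s 272 K.t K.t)) (K.s 123 K.t (K.s 27 K.t K.t))) (K.s 90 (K.s 26 K.t (K.s 19 K.t K.t)) (K.s 27 K.t (K.s 63 K.t K.t))))) (K.s 1248 (K.s 255 (K.s 180 (K.s 24 K.t (K.s 144 K.t K.t)) (K.s 15 K.t (K.s 45 K.t K.t))) (K.s 615 (K.s 220 K.t (K.s 206 K.t K.t)) (K.s 126 K.t (K.s 225 K.t K.t)))) (K.s 2142 (K.s 1242 (K.s 972 K.t (K.s 225 K.t K.t)) (K.s 27 K.t (K.s 378 K.t K.t))) (K.s 765 (K.s 315 K.t (K.s 153 K.t K.t)) (K.s 789 (K.s 222 K.t K.t) (K.s 354 K.t K.t)))))))) (T.lf (K.s 7086 (K.s 3495 (K.s 1545 (K.s 480 (K.s 255 (K.s 210 (K.s 75 K.z K.t) (K.s 30 K.t K.t)) (K.s 33 K.t (K.s 21 K.t K.t))) (K.s 540 (K.s 75 K.t (K.s 330 K.t K.t)) (K.s 72 (K.s 27 K.t K.t) (K.s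 306 K.t K.t)))) (K.s 960 (K.s 384 (K.s 267 K.t (K.s 81 K.t K.t)) (K.s 513 (K.s 321 K.t K.t) (K.s 18 K.t K.t))) (K.s 480 (K.s 90 K.t (K.s 207 K.t K.t)) (K.s 330 (K.s 195 K.t K.t) (K.s 99 K.t K.t))))) (K.s 1950 (K.s 960 (K.s 642 (K.s 225 K.t (K.s 270 K.t K.t)) (K.s 18 K.t (K.s 132 K.t K.t))) (K.s 399 (K.s 165 K.t (K.s 45 K.t K.t)) (K.s 126 (K.s 81 K.t K.t) (K.s 210 K.t K.t)))) (K.s 543 (K.s 165 (K.s 30 K.t (K.s 45 K.t K.t)) (K.s 225 (K.s 90 K.t K.t) (K.s 90 K.t K.t))) (K.s 567 (K.s 63 K.t (K.s 288 K.t K.t)) (K.s 141 (K.s 126 K.t K.t) (K.s 264 K.t K.t)))))) (K.s 1926 (K.s 990 (K.s 369 (K.s 99 (K.s 9 K.t (K.s 9 K.t K.t)) (K.s 61 K.t (K.s 164 K.t K.t))) (K.s 354 (K.s 108 K.t (K.s 27 K.t K.t)) (K.s 216 (K.s 69 K.t K.t) (K.s 21 K.t K.t)))) (K.s 369 (K.s 99 (K.s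 18 K.t (K.s 39 K.t K.t)) (K.s 207 (K.s 165 K.t K.t) (K.s 42 K.t K.t))) (K.s 216 (K.s 65 K.t (K.s 43 K.t K.t)) (K.s 183 (K.s 99 K.t K.t) (K.s 21 K.t K.t))))) (K.s 3051 (K.s 588 (K.s 303 (K.s 54 K.t (K.s 219 K.t K.t)) (K.s 120 (K.s 12 K.t K.t) (K.s 145 K.t K.t))) (K.s 735 (K.s 315 K.t (K.s 120 K.t K.t)) (K.s 135 (K.s 105 K.t K.t) (K.s 540 K.t K.t)))) (K.s 1335 (K.s 495 (K.s 297 K.t (K.s 50 K.t K.t)) (K.s 657 (K.s 87 K.t K.t) (K.s 144 K.t K.t))) (K.s 906 (K.s 312 K.t (K.s 585 K.t K.t)) (K.s 280 (K.s 198 K.t K.t) (K.s 224 K.t K.t)))))))))))) T.nil) T.nil) T.nil) T.nil) T.nil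

/-- part 7 of the values -/
noncomputable def t7 : T := T.nd (T.nd (T.nd (T.nd (T.nd T.nil (T.nd (T.nd (T.nd (T.nd (T.lf (K.s 6931 (K.s 4387 (K.s 1717 (K.s 1069 (K.s 529 (K.s 502 (K.s 262 K.z K.t) K.t) (K.s 405 K.t K.t)) (K.s 351 (K.s 156 K.t K.t) (K.s 27 K.t K.t))) (K.s 990 (K.s 216 (K.s 108 K.t K.t) (K.s 648 K.t K.t)) (K.s 675 (K.s 45 K.t K.t) (K.s 225 K.t K.t)))) (K.s 1461 (K.s 1200 (K.s 945 (K.s 573 K.t K.t) (K.s 138 K.t K.t)) (K.s 95 (K.s 45 K.t K.t) (K.s 157 K.t K.t))) (K.s 444 (K.s 234 (K.s 189 K.t K.t) (K.s 18 K.t K.t)) (K.s 300 (K.s 15 K.t K.t) (K.s 174 K.t (K.s 162 K.t K.t)))))) (K.s 2688 (K.s 1221 (K.s 669 (K.s 501 (K.s 396 K.t K.t) (K.s 63 K.t K.t)) (K.s 282 (K.s 111 K.t K.t) (K.s 180 K.t K.t))) (K.s 690 (K.s 561 (K.s 315 K.t K.t) (K.s 24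 K.t K.t)) (K.s 273 (K.s 84 K.t K.t) (K.s 477 K.t (K.s 18 K.t K.t))))) (K.s 819 (K.s 183 (K.s 138 (K.s 16 K.t K.t) (K.s 9 K.t K.t)) (K.s 36 (K.s 15 K.t K.t) (K.s 429 K.t K.t))) (K.s 699 (K.s 459 (K.s 429 K.t K.t) (K.s 105 K.t K.t)) (K.s 1860 (K.s 1839 K.t K.t) (K.s 578 K.t (K.s 652 K.t K.t)))))))) (T.lf (K.s 7054 (K.s 4754 (K.s 2090 (K.s 1235 (K.s 884 (K.s 599 (K.s 569 K.z K.t) K.t) (K.s 90 K.t K.t)) (K.s 459 (K.s 99 K.t K.t) (K.s 225 K.t K.t))) (K.s 1719 (K.s 369 (K.s 18 K.t K.t) (K.s 1029 K.t K.t)) (K.s 630 (K.s 360 K.t K.t) (K.s 180 K.t K.t)))) (K.s 840 (K.s 441 (K.s 315 (K.s 312 K.t K.t) (K.s 75 K.t K.t)) (K.s 174 (K.s 72 K.t K.t) (K.s 60 K.t K.t))) (K.s 825 (K.s 483 (K.s 175 K.t K.t) (K.s 162 K.t K.t)) (K.s 225 (K.s 198 K.t K.t) (K.s 105 K.t (K.s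 210 K.t K.t)))))) (K.s 2005 (K.s 1102 (K.s 715 (K.s 400 (K.s 157 K.t K.t) (K.s 163 K.t K.t)) (K.s 333 (K.s 90 K.t K.t) (K.s 27 K.t K.t))) (K.s 504 (K.s 287 (K.s 243 K.t K.t) (K.s 31 K.t K.t)) (K.s 249 (K.s 84 K.t K.t) (K.s 84 K.t K.t)))) (K.s 2145 (K.s 825 (K.s 447 (K.s 210 K.t K.t) (K.s 228 K.t K.t)) (K.s 351 (K.s 45 K.t K.t) (K.s 459 K.t K.t))) (K.s 915 (K.s 615 (K.s 165 K.t K.t) (K.s 249 K.t K.t)) (K.s 1329 (K.s 321 K.t K.t) (K.s 321 K.t (K.s 1005 K.t K.t))))))))) (T.nd (T.lf (K.s 6633 (K.s 3258 (K.s 1494 (K.s 468 (K.s 423 (K.s 148 (K.s 108 K.z K.t) K.t) (K.s 30 K.t K.t)) (K.s 486 (K.s 135 K.t K.t) (K.s 34 K.t (K.s 275 K.t K.t)))) (K.s 1125 (K.s 144 (K.s 99 K.t K.t) (K.s 450 K.t (K.s 192 K.t K.t))) (K.s 376 (K.s 198 K.t K.t) (K.s 26 K.t (K.s 195 K.t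 K.t))))) (K.s 1872 (K.s 1395 (K.s 1170 (K.s 855 K.t K.t) (K.s 90 K.t (K.s 90 K.t K.t))) (K.s 360 (K.s 108 K.t K.t) (K.s 72 K.t (K.s 27 K.t K.t)))) (K.s 918 (K.s 333 (K.s 90 K.t K.t) (K.s 102 K.t (K.s 87 K.t K.t))) (K.s 360 (K.s 90 K.t K.t) (K.s 54 K.t (K.s 81 K.t K.t)))))) (K.s 2178 (K.s 1098 (K.s 495 (K.s 315 (K.s 99 K.t K.t) (K.s 90 K.t K.t)) (K.s 306 (K.s 225 K.t K.t) (K.s 54 K.t (K.s 180 K.t K.t)))) (K.s 432 (K.s 279 (K.s 142 K.t K.t) (K.s 18 K.t (K.s 54 K.t K.t))) (K.s 162 (K.s 156 K.t K.t) (K.s 171 K.t (K.s 117 K.t K.t))))) (K.s 1377 (K.s 702 (K.s 372 (K.s 240 K.t K.t) (K.s 130 K.t (K.s 65 K.t K.t))) (K.s 108 (K.s 81 K.t K.t) (K.s 42 K.t (K.s 150 K.t K.t)))) (K.s 1610 (K.s 1050 (K.s 444 K.t K.t) (K.s 435 K.t (K.s 36 K.t K.t))) (K.s 490 (K.s 91 K.t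 K.t) (K.s 240 K.t (K.s 1823 K.t K.t)))))))) (T.lf (K.s 6385 (K.s 3235 (K.s 1840 (K.s 427 (K.s 265 (K.s 40 K.z K.t) K.t) (K.s 423 K.t (K.s 234 K.t K.t))) (K.s 450 (K.s 85 K.t (K.s 68 K.t K.t)) (K.s 390 K.t (K.s 129 K.t K.t)))) (K.s 1485 (K.s 486 (K.s 150 K.t (K.s 120 K.t K.t)) (K.s 639 K.t (K.s 315 K.t K.t))) (K.s 903 (K.s 189 K.t (K.s 396 K.t K.t)) (K.s 159 K.t (K.s 135 K.t K.t))))) (K.s 2154 (K.s 864 (K.s 540 (K.s 180 K.t K.t) (K.s 261 K.t (K.s 27 K.t K.t))) (K.s 576 (K.s 282 K.t (K.s 267 K.t K.t)) (K.s 285 K.t (K.s 336 K.t K.t)))) (K.s 1683 (K.s 951 (K.s 231 K.t (K.s 660 K.t K.t)) (K.s 225 K.t (K.s 105 K.t K.t))) (K.s 2445 (K.s 186 K.t (K.s 1602 K.t K.t)) (K.s 228 K.t (K.s 915 K.t K.t))))))))) T.nil) T.nil)) T.nil) T.nil) T.nil) T.nil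

/-- part 8 of the values -/
noncomputable def t8 : T := T.nd (T.nd (T.nd (T.nd (T.nd T.nil (T.nd (T.nd T.nil (T.nd (T.nd (T.lf (K.s 6935 (K.s 3785 (K.s 2645 (K.s 1349 (K.s 935 (K.s 539 K.z K.t) (K.s 90 K.t K.t)) (K.s 1035 (K.s 702 K.t K.t) (K.s 147 K.t K.t))) (K.s 495 (K.s 165 K.t (K.s 99 K.t K.t)) (K.s 315 (K.s 36 K.t K.t) (K.s 270 K.t K.t)))) (K.s 1938 (K.s 825 (K.s 75 K.t (K.s 441 K.t K.t)) (K.s 147 (K.s 69 K.t K.t) (K.s 858 K.t K.t))) (K.s 294 (K.s 189 (K.s 167 K.t K.t) (K.s 9 K.t K.t)) (K.s 143 (K.s 18 K.t K.t) (K.s 148 K.t K.t))))) (K.s 1350 (K.s 825 (K.s 300 (K.s 33 K.t (K.s 105 K.t K.t)) (K.s 432 (K.s 81 K.t K.t) (K.s 78 K.t K.t))) (K.s 150 (K.s 91 K.t (K.s 14 K.t K.t)) (K.s 81 (K.s 9 K.t K.t) (K.s 126 K.t K.t)))) (K.s 825 (K.s 435 (K.s 30 K.t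 (K.s 270 K.t K.t)) (K.s 90 (K.s 27 K.t K.t) (K.s 126 K.t K.t))) (K.s 2283 (K.s 285 (K.s 69 K.t K.t) (K.s 300 K.t K.t)) (K.s 1827 (K.s 42 K.t K.t) (K.s 843 K.t K.t))))))) (T.lf (K.s 7734 (K.s 4872 (K.s 2142 (K.s 822 (K.s 399 (K.s 72 K.z K.t) (K.s 342 K.t K.t)) (K.s 525 (K.s 150 K.t K.t) (K.s 717 K.t K.t))) (K.s 1110 (K.s 948 (K.s 705 K.t K.t) (K.s 90 K.t K.t)) (K.s 729 (K.s 150 K.t K.t) (K.s 441 K.t K.t)))) (K.s 1782 (K.s 1144 (K.s 864 (K.s 825 K.t K.t) (K.s 201 K.t K.t)) (K.s 116 (K.s 86 K.t K.t) (K.s 441 K.t K.t))) (K.s 675 (K.s 324 (K.s 135 K.t K.t) (K.s 294 K.t K.t)) (K.s 297 (K.s 243 K.t K.t) (K.s 81 K.t K.t))))) (K.s 4608 (K.s 1593 (K.s 378 (K.s 108 K.t (K.s 180 K.t K.t)) (K.s 315 (K.s 120 K.t K.t) (K.s 630 K.t K.t))) (K.s 1045 (K.s 468 (K.s 318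 K.t K.t) (K.s 522 K.t K.t)) (K.s 1871 (K.s 359 K.t K.t) (K.s 98 K.t K.t)))) (K.s 905 (K.s 252 (K.s 195 (K.s 27 K.t K.t) (K.s 30 K.t K.t)) (K.s 378 (K.s 132 K.t K.t) (K.s 135 K.t K.t))) (K.s 391 (K.s 217 (K.s 211 K.t K.t) (K.s 21 K.t K.t)) (K.s 474 (K.s 343 K.t K.t) (K.s 360 K.t K.t)))))))) (T.nd (T.lf (K.s 6877 (K.s 3286 (K.s 1936 (K.s 640 (K.s 316 (K.s 121 K.z K.t) (K.s 135 K.t K.t)) (K.s 621 (K.s 162 K.t K.t) (K.s 633 K.t K.t))) (K.s 225 (K.s 183 (K.s 135 K.t K.t) (K.s 39 K.t K.t)) (K.s 530 (K.s 435 K.t K.t) (K.s 460 K.t K.t)))) (K.s 2052 (K.s 675 (K.s 390 (K.s 243 K.t K.t) (K.s 141 K.t K.t)) (K.s 729 (K.s 405 K.t K.t) (K.s 405 K.t K.t))) (K.s 1053 (K.s 213 (K.s 54 K.t K.t) (K.s 831 K.t K.t)) (K.s 207 (K.s 200 K.t K.t) (K.s 198 K.t K.t))))) (K.s 1638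 (K.s 1287 (K.s 594 (K.s 104 K.t (K.s 301 K.t K.t)) (K.s 378 (K.s 297 K.t K.t) (K.s 54 K.t K.t))) (K.s 135 (K.s 63 (K.s 27 K.t K.t) (K.s 57 K.t K.t)) (K.s 117 (K.s 63 K.t K.t) (K.s 9 K.t K.t)))) (K.s 1976 (K.s 825 (K.s 377 (K.s 324 K.t K.t) (K.s 91 K.t K.t)) (K.s 210 (K.s 129 K.t K.t) (K.s 336 K.t K.t))) (K.s 2200 (K.s 1075 (K.s 715 K.t K.t) (K.s 240 K.t K.t)) (K.s 1510 (K.s 1206 K.t K.t) (K.s 557 K.t K.t))))))) (T.lf (K.s 7403 (K.s 3029 (K.s 1178 (K.s 1058 (K.s 500 (K.s 428 K.z K.t) (K.s 303 K.t K.t)) (K.s 27 K.t (K.s 33 K.t K.t))) (K.s 555 (K.s 150 K.t (K.s 186 K.t K.t)) (K.s 594 (K.s 183 K.t K.t) (K.s 450 K.t K.t)))) (K.s 1303 (K.s 189 (K.s 54 K.t (K.s 45 K.t K.t)) (K.s 140 (K.s 135 K.t K.t) (K.s 913 K.t K.t))) (K.s 896 (K.s 371 K.t (K.s 27 K.t K.t))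 (K.s 1689 (K.s 15 K.t K.t) (K.s 394 K.t K.t))))) (K.s 2295 (K.s 990 (K.s 321 (K.s 162 K.t (K.s 63 K.t K.t)) (K.s 304 (K.s 219 K.t K.t) (K.s 104 K.t K.t))) (K.s 423 (K.s 117 K.t (K.s 99 K.t K.t)) (K.s 207 (K.s 72 K.t K.t) (K.s 99 K.t K.t)))) (K.s 2453 (K.s 1395 (K.s 75 K.t (K.s 1257 K.t K.t)) (K.s 495 (K.s 420 K.t K.t) (K.s 415 K.t K.t))) (K.s 1507 (K.s 283 K.t (K.s 234 K.t K.t)) (K.s 798 (K.s 741 K.t K.t) (K.s 357 K.t K.t)))))))))) T.nil)) T.nil) T.nil) T.nil) T.nil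

/-- part 9 of the values -/
noncomputable def t9 : T := T.nd (T.nd (T.nd (T.nd (T.nd T.nil (T.nd T.nil (T.nd (T.nd (T.nd (T.lf (K.s 7176 (K.s 4179 (K.s 2361 (K.s 1191 (K.s 333 (K.s 58 K.z K.t) (K.s 501 K.t K.t)) (K.s 630 (K.s 315 K.t K.t) (K.s 450 K.t K.t))) (K.s 945 (K.s 414 K.t (K.s 27 K.t K.t)) (K.s 225 (K.s 195 K.t K.t) (K.s 60 K.t K.t)))) (K.s 1107 (K.s 567 (K.s 45 K.t (K.s 36 K.t K.t)) (K.s 180 (K.s 50 K.t K.t) (K.s 225 K.t K.t))) (K.s 525 (K.s 459 (K.s 189 K.t K.t) (K.s 54 K.t K.t)) (K.s 1005 (K.s 660 K.t K.t) (K.s 201 K.t K.t))))) (K.s 1764 (K.s 945 (K.s 441 (K.s 54 K.t (K.s 306 K.t K.t)) (K.s 126 (K.s 54 K.t K.t) (K.s 273 K.t K.t))) (K.s 270 (K.s 27 K.t (K.s 9 K.t K.t)) (K.s 324 (K.s 69 K.t K.t) (K.s 176 K.t K.t)))) (K.s 1071 (K.s 585 (K.s 252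 K.t (K.s 63 K.t K.t)) (K.s 192 (K.s 81 K.t K.t) (K.s 102 K.t K.t))) (K.s 2466 (K.s 860 (K.s 135 K.t K.t) (K.s 1320 K.t K.t)) (K.s 864 (K.s 822 K.t K.t) (K.s 1227 K.t K.t))))))) (T.lf (K.s 7054 (K.s 4408 (K.s 2923 (K.s 1222 (K.s 242 (K.s 25 K.z K.t) (K.s 791 K.t K.t)) (K.s 918 K.t (K.s 318 K.t K.t))) (K.s 729 (K.s 156 K.t (K.s 204 K.t K.t)) (K.s 531 (K.s 54 K.t K.t) (K.s 180 K.t K.t)))) (K.s 1637 (K.s 783 (K.s 300 K.t (K.s 240 K.t K.t)) (K.s 513 K.t (K.s 54 K.t K.t))) (K.s 118 (K.s 37 K.t (K.s 75 K.t K.t)) (K.s 225 (K.s 27 K.t K.t) (K.s 585 K.t K.t))))) (K.s 2799 (K.s 1350 (K.s 654 (K.s 378 K.t (K.s 255 K.t K.t)) (K.s 99 K.t (K.s 366 K.t K.t))) (K.s 369 (K.s 63 K.t (K.s 216 K.t K.t)) (K.s 765 (K.s 222 K.t K.t) (K.s 270 K.t K.t)))) (K.s 3615 (K.s 1905 (K.s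 1155 K.t (K.s 315 K.t K.t)) (K.s 1200 (K.s 174 K.t K.t) (K.s 360 K.t K.t))) (K.s 818 (K.s 609 K.t (K.s 186 K.t K.t)) (K.s 418 (K.s 397 K.t K.t) (K.s 79 K.t K.t)))))))) (T.nd (T.lf (K.s 7337 (K.s 4091 (K.s 2156 (K.s 1287 (K.s 677 (K.s 293 (K.s 230 K.z K.t) K.t) (K.s 39 K.t K.t)) (K.s 752 (K.s 455 K.t K.t) (K.s 63 K.t K.t))) (K.s 1071 (K.s 819 (K.s 315 K.t K.t) (K.s 237 K.t K.t)) (K.s 324 (K.s 117 K.t K.t) (K.s 162 K.t K.t)))) (K.s 1530 (K.s 1116 (K.s 702 (K.s 192 K.t K.t) (K.s 234 K.t K.t)) (K.s 255 (K.s 165 K.t K.t) (K.s 60 K.t K.t))) (K.s 1161 (K.s 576 (K.s 279 K.t K.t) (K.s 513 K.t K.t)) (K.s 225 (K.s 126 K.t K.t) (K.s 125 K.t K.t))))) (K.s 1722 (K.s 1083 (K.s 750 (K.s 561 (K.s 75 K.t K.t) (K.s 69 K.t K.t)) (K.s 240 (K.s 189 K.t K.t) (K.s 30 K.t K.t)))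 (K.s 196 (K.s 72 (K.s 36 K.t K.t) (K.s 60 K.t K.t)) (K.s 116 (K.s 41 K.t K.t) (K.s 255 K.t K.t)))) (K.s 2175 (K.s 243 (K.s 36 (K.s 27 K.t K.t) (K.s 45 K.t K.t)) (K.s 81 (K.s 54 K.t K.t) (K.s 1134 K.t K.t))) (K.s 2109 (K.s 714 (K.s 498 K.t K.t) (K.s 702 K.t K.t)) (K.s 549 (K.s 84 K.t K.t) (K.s 72 K.t (K.s 126 K.t K.t)))))))) (T.lf (K.s 6429 (K.s 3834 (K.s 1354 (K.s 810 (K.s 687 (K.s 60 K.z K.t) (K.s 42 K.t K.t)) (K.s 279 (K.s 207 K.t K.t) (K.s 225 K.t K.t))) (K.s 1265 (K.s 230 K.t (K.s 70 K.t K.t)) (K.s 795 (K.s 729 K.t K.t) (K.s 231 K.t K.t)))) (K.s 1683 (K.s 455 (K.s 81 K.t (K.s 84 K.t K.t)) (K.s 400 (K.s 355 K.t K.t) (K.s 354 K.t K.t))) (K.s 477 (K.s 357 (K.s 207 K.t K.t) (K.s 45 K.t K.t)) (K.s 105 (K.s 69 K.t K.t) (K.s 165 K.t K.t))))) (K.s 2407 (K.s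 1257 (K.s 240 (K.s 60 K.t (K.s 72 K.t K.t)) (K.s 837 (K.s 396 K.t K.t) (K.s 81 K.t K.t))) (K.s 819 (K.s 657 (K.s 129 K.t K.t) (K.s 66 K.t K.t)) (K.s 234 (K.s 108 K.t K.t) (K.s 90 K.t K.t)))) (K.s 2378 (K.s 743 (K.s 101 K.t (K.s 477 K.t K.t)) (K.s 1140 (K.s 330 K.t K.t) (K.s 117 K.t K.t))) (K.s 1185 (K.s 801 (K.s 657 K.t K.t) (K.s 324 K.t K.t)) (K.s 480 (K.s 120 K.t K.t) (K.s 1269 K.t K.t))))))))) T.nil))) T.nil) T.nil) T.nil) T.nil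

/-- part 10 of the values -/
noncomputable def t10 : T := T.nd (T.nd (T.nd (T.nd (T.nd T.nil (T.nd T.nil (T.nd T.nil (T.nd (T.nd (T.lf (K.s 6349 (K.s 3514 (K.s 1435 (K.s 391 (K.s 91 (K.s 58 (K.s 16 K.z K.t) K.t) (K.s 174 K.t K.t)) (K.s 324 (K.s 99 K.t K.t) (K.s 579 K.t K.t))) (K.s 1269 (K.s 189 (K.s 14 K.t K.t) (K.s 15 K.t K.t)) (K.s 183 (K.s 27 K.t K.t) (K.s 2 K.t (K.s 400 K.t K.t))))) (K.s 1710 (K.s 585 (K.s 195 (K.s 24 K.t K.t) (K.s 75 K.t K.t)) (K.s 645 (K.s 495 K.t K.t) (K.s 80 K.t (K.s 320 K.t K.t)))) (K.s 650 (K.s 279 (K.s 261 K.t K.t) (K.s 306 K.t K.t)) (K.s 205 (K.s 7 K.t K.t) (K.s 165 K.t (K.s 102 K.t K.t)))))) (K.s 2919 (K.s 1575 (K.s 918 (K.s 378 (K.s 126 K.t K.t) (K.s 450 K.t K.t)) (K.s 78 (K.s 27 K.t K.t) (K.s 300 K.t (K.s 234 K.t K.t))))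 (K.s 828 (K.s 558 (K.s 207 K.t K.t) (K.s 255 K.t K.t)) (K.s 177 (K.s 117 K.t K.t) (K.s 75 K.t (K.s 45 K.t K.t))))) (K.s 2877 (K.s 390 (K.s 177 (K.s 78 K.t K.t) (K.s 9 K.t K.t)) (K.s 201 (K.s 24 K.t K.t) (K.s 270 K.t (K.s 42 K.t K.t)))) (K.s 1575 (K.s 908 (K.s 279 K.t K.t) (K.s 53 K.t K.t)) (K.s 609 (K.s 294 K.t K.t) (K.s 120 K.t (K.s 300 K.t K.t)))))))) (T.lf (K.s 6026 (K.s 3986 (K.s 2555 (K.s 2366 (K.s 521 (K.s 341 K.z K.t) (K.s 630 K.t K.t)) (K.s 54 K.t (K.s 45 K.t K.t))) (K.s 459 (K.s 81 K.t (K.s 75 K.t K.t)) (K.s 22 K.t (K.s 446 K.t K.t)))) (K.s 1050 (K.s 243 (K.s 30 K.t (K.s 159 K.t K.t)) (K.s 243 K.t (K.s 270 K.t K.t))) (K.s 645 (K.s 300 K.t (K.s 225 K.t K.t)) (K.s 195 (K.s 150 K.t K.t) (K.s 3 K.t K.t))))) (K.s 2658 (K.s 930 (K.s 390 (K.s 102 K.t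 (K.s 258 K.t K.t)) (K.s 339 K.t (K.s 66 K.t K.t))) (K.s 1020 (K.s 432 K.t (K.s 198 K.t K.t)) (K.s 357 K.t (K.s 153 K.t K.t)))) (K.s 3402 (K.s 447 (K.s 252 K.t (K.s 15 K.t K.t)) (K.s 930 K.t (K.s 1485 K.t K.t))) (K.s 1809 (K.s 555 K.t (K.s 978 K.t K.t)) (K.s 549 (K.s 237 K.t K.t) (K.s 322 K.t K.t)))))))) (T.nd (T.lf (K.s 7341 (K.s 4317 (K.s 1710 (K.s 1104 (K.s 537 (K.s 400 (K.s 186 K.z K.t) K.t) (K.s 180 K.t K.t)) (K.s 351 (K.s 126 K.t K.t) (K.s 162 K.t K.t))) (K.s 1770 (K.s 1365 (K.s 15 K.t K.t) (K.s 264 K.t K.t)) (K.s 648 (K.s 135 K.t K.t) (K.s 72 K.t (K.s 9 K.t K.t))))) (K.s 1953 (K.s 813 (K.s 459 (K.s 378 K.t K.t) (K.s 324 K.t K.t)) (K.s 984 (K.s 132 K.t K.t) (K.s 66 K.t (K.s 45 K.t K.t)))) (K.s 585 (K.s 450 (K.s 279 K.t K.t) (K.s 54 K.t K.t)) (K.s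 225 (K.s 144 K.t K.t) (K.s 9 K.t (K.s 117 K.t K.t)))))) (K.s 2907 (K.s 1323 (K.s 594 (K.s 432 (K.s 189 K.t K.t) (K.s 135 K.t K.t)) (K.s 285 (K.s 154 K.t K.t) (K.s 255 K.t (K.s 60 K.t K.t)))) (K.s 426 (K.s 243 (K.s 108 K.t K.t) (K.s 54 K.t K.t)) (K.s 492 (K.s 15 K.t K.t) (K.s 201 K.t (K.s 15 K.t K.t))))) (K.s 2340 (K.s 1251 (K.s 1077 (K.s 42 K.t K.t) (K.s 4 K.t K.t)) (K.s 381 (K.s 231 K.t K.t) (K.s 147 K.t (K.s 228 K.t K.t)))) (K.s 747 (K.s 114 (K.s 87 K.t K.t) (K.s 183 K.t K.t)) (K.s 540 (K.s 145 K.t K.t) (K.s 225 K.t (K.s 171 K.t K.t)))))))) (T.lf (K.s 6994 (K.s 4411 (K.s 1582 (K.s 427 (K.s 211 (K.s 37 K.z K.t) (K.s 105 K.t K.t)) (K.s 96 K.t (K.s 675 K.t K.t))) (K.s 1695 (K.s 399 K.t (K.s 933 K.t K.t)) (K.s 567 (K.s 525 K.t K.t) (K.s 486 K.t K.t))))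 (K.s 1344 (K.s 1176 (K.s 210 K.t (K.s 231 K.t K.t)) (K.s 30 K.t (K.s 90 K.t K.t))) (K.s 357 (K.s 168 K.t (K.s 54 K.t K.t)) (K.s 495 (K.s 363 K.t K.t) (K.s 135 K.t K.t))))) (K.s 2034 (K.s 1008 (K.s 729 (K.s 558 K.t (K.s 9 K.t K.t)) (K.s 9 K.t (K.s 165 K.t K.t))) (K.s 315 (K.s 120 K.t (K.s 150 K.t K.t)) (K.s 72 (K.s 30 K.t K.t) (K.s 153 K.t K.t)))) (K.s 2196 (K.s 810 (K.s 459 K.t (K.s 324 K.t K.t)) (K.s 495 K.t (K.s 54 K.t K.t))) (K.s 1437 (K.s 879 K.t (K.s 534 K.t K.t)) (K.s 1740 (K.s 206 K.t K.t) (K.s 307 K.t K.t)))))))))))) T.nil) T.nil) T.nil) T.nil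

/-- part 11 of the values -/
noncomputable def t11 : T := T.nd (T.nd (T.nd (T.nd T.nil (T.nd (T.nd (T.nd (T.nd (T.nd (T.lf (K.s 7304 (K.s 5561 (K.s 1601 (K.s 1061 (K.s 566 (K.s 386 K.z K.t) K.t) (K.s 65 K.t K.t)) (K.s 990 (K.s 78 K.t K.t) (K.s 1638 K.t K.t))) (K.s 1074 (K.s 660 (K.s 187 K.t K.t) (K.s 150 K.t K.t)) (K.s 291 (K.s 231 K.t K.t) (K.s 345 K.t K.t)))) (K.s 2370 (K.s 997 (K.s 921 (K.s 444 K.t K.t) (K.s 6 K.t K.t)) (K.s 185 (K.s 140 K.t K.t) (K.s 945 K.t K.t))) (K.s 531 (K.s 210 (K.s 207 K.t K.t) (K.s 21 K.t K.t)) (K.s 1526 (K.s 1197 K.t K.t) (K.s 1660 K.t (K.s 639 K.t K.t))))))) (T.lf (K.s 6414 (K.s 4125 (K.s 1983 (K.s 1155 (K.s 888 (K.s 853 K.z K.t) K.t) (K.s 405 K.t K.t)) (K.s 1170 (K.s 85 K.t K.t) (K.s 594 K.t (K.s 231 K.t K.t)))) (K.s 1296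 (K.s 891 (K.s 198 K.t K.t) (K.s 243 K.t K.t)) (K.s 153 (K.s 27 K.t K.t) (K.s 36 K.t (K.s 207 K.t K.t))))) (K.s 1482 (K.s 816 (K.s 439 (K.s 384 K.t K.t) (K.s 53 K.t K.t)) (K.s 162 (K.s 63 K.t K.t) (K.s 241 K.t (K.s 23 K.t K.t)))) (K.s 1602 (K.s 892 (K.s 387 K.t K.t) (K.s 65 K.t (K.s 334 K.t K.t))) (K.s 1890 (K.s 690 K.t K.t) (K.s 1515 K.t (K.s 462 K.t K.t)))))))) (T.nd (T.lf (K.s 7102 (K.s 3435 (K.s 2377 (K.s 487 (K.s 406 (K.s 361 K.z K.t) K.t) (K.s 1323 K.t K.t)) (K.s 900 (K.s 135 K.t K.t) (K.s 60 K.t K.t))) (K.s 1462 (K.s 790 (K.s 742 K.t K.t) (K.s 156 K.t K.t)) (K.s 1425 (K.s 45 K.t K.t) (K.s 402 K.t (K.s 66 K.t K.t))))) (K.s 1755 (K.s 810 (K.s 345 (K.s 117 K.t K.t) (K.s 240 K.t K.t)) (K.s 495 (K.s 189 K.t K.t) (K.s 126 K.t K.t))) (K.s 2840 (K.s 144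 (K.s 135 K.t K.t) (K.s 774 K.t K.t)) (K.s 1015 (K.s 571 K.t K.t) (K.s 1008 K.t (K.s 396 K.t K.t))))))) (T.lf (K.s 7277 (K.s 3884 (K.s 2471 (K.s 374 (K.s 219 K.z K.t) (K.s 1670 K.t K.t)) (K.s 243 (K.s 183 K.t K.t) (K.s 612 K.t K.t))) (K.s 2200 (K.s 1503 K.t (K.s 248 K.t K.t)) (K.s 860 (K.s 761 K.t K.t) (K.s 225 K.t K.t)))) (K.s 2565 (K.s 1152 (K.s 332 K.t (K.s 175 K.t K.t)) (K.s 1170 (K.s 84 K.t K.t) (K.s 135 K.t K.t))) (K.s 2592 (K.s 810 (K.s 432 K.t K.t) (K.s 972 K.t K.t)) (K.s 873 (K.s 495 K.t K.t) (K.s 889 K.t K.t)))))))) T.nil) T.nil) T.nil)) T.nil) T.nil) T.nil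

/-- part 12 of the values -/
noncomputable def t12 : T := T.nd (T.nd (T.nd (T.nd T.nil (T.nd (T.nd (T.nd T.nil (T.nd (T.nd (T.lf (K.s 6543 (K.s 2469 (K.s 1989 (K.s 678 (K.s 549 (K.s 369 K.z K.t) K.t) (K.s 1221 K.t K.t)) (K.s 243 (K.s 135 K.t K.t) (K.s 225 K.t K.t))) (K.s 1820 (K.s 924 (K.s 555 K.t K.t) (K.s 567 K.t K.t)) (K.s 988 (K.s 220 K.t K.t) (K.s 27 K.t (K.s 1032 K.t K.t))))) (K.s 2439 (K.s 1526 (K.s 576 (K.s 126 K.t K.t) (K.s 45 K.t K.t)) (K.s 685 (K.s 130 K.t K.t) (K.s 120 K.t K.t))) (K.s 1047 (K.s 783 (K.s 522 K.t K.t) (K.s 54 K.t K.t)) (K.s 888 (K.s 875 K.t K.t) (K.s 748 K.t (K.s 1804 K.t K.t))))))) (T.lf (K.s 7175 (K.s 3634 (K.s 2515 (K.s 1381 (K.s 1075 (K.s 316 K.z K.t) K.t) (K.s 504 K.t K.t)) (K.s 594 (K.s 261 K.t K.t) (K.s 162 K.t (K.s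 153 K.t K.t)))) (K.s 2715 (K.s 936 (K.s 873 K.t K.t) (K.s 996 K.t K.t)) (K.s 648 (K.s 456 K.t K.t) (K.s 9 K.t (K.s 126 K.t K.t))))) (K.s 1955 (K.s 281 (K.s 140 (K.s 56 K.t K.t) (K.s 114 K.t K.t)) (K.s 567 (K.s 399 K.t K.t) (K.s 483 K.t (K.s 210 K.t K.t)))) (K.s 598 (K.s 345 (K.s 90 K.t K.t) (K.s 6 K.t (K.s 189 K.t K.t))) (K.s 1508 (K.s 653 K.t K.t) (K.s 70 K.t (K.s 128 K.t K.t)))))))) (T.nd (T.lf (K.s 7850 (K.s 3650 (K.s 2603 (K.s 1064 (K.s 1025 K.z K.t) (K.s 486 K.t K.t)) (K.s 810 (K.s 774 K.t K.t) (K.s 27 K.t K.t))) (K.s 2220 (K.s 483 (K.s 330 K.t K.t) (K.s 1323 K.t K.t)) (K.s 258 (K.s 252 K.t K.t) (K.s 780 K.t K.t)))) (K.s 720 (K.s 435 (K.s 153 K.t (K.s 69 K.t K.t)) (K.s 60 (K.s 15 K.t K.t) (K.s 9 K.t K.t))) (K.s 2206 (K.s 750 (K.s 270 K.t K.t) (K.s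 1005 K.t K.t)) (K.s 2366 (K.s 1309 K.t K.t) (K.s 1092 K.t K.t)))))) (T.lf (K.s 7062 (K.s 5515 (K.s 3066 (K.s 1077 (K.s 672 (K.s 587 K.z K.t) K.t) (K.s 990 K.t K.t)) (K.s 1521 (K.s 1008 K.t K.t) (K.s 585 K.t K.t))) (K.s 1178 (K.s 611 (K.s 227 K.t K.t) (K.s 531 K.t K.t)) (K.s 288 (K.s 282 K.t K.t) (K.s 75 K.t K.t)))) (K.s 2520 (K.s 1575 (K.s 1143 (K.s 30 K.t K.t) (K.s 189 K.t K.t)) (K.s 615 (K.s 567 K.t K.t) (K.s 33 K.t K.t))) (K.s 1980 (K.s 246 (K.s 108 K.t K.t) (K.s 1374 K.t K.t)) (K.s 1215 (K.s 690 K.t K.t) (K.s 423 K.t K.t))))))))) T.nil) T.nil)) T.nil) T.nil) T.nil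

/-- part 13 of the values -/
noncomputable def t13 : T := T.nd (T.nd (T.nd (T.nd T.nil (T.nd T.nil (T.nd (T.nd (T.nd (T.nd (T.lf (K.s 7428 (K.s 4317 (K.s 1008 (K.s 348 (K.s 42 K.z K.t) (K.s 279 K.t K.t)) (K.s 582 K.t (K.s 1431 K.t K.t))) (K.s 1458 (K.s 486 K.t (K.s 144 K.t K.t)) (K.s 1215 (K.s 648 K.t K.t) (K.s 123 K.t K.t)))) (K.s 4800 (K.s 1722 (K.s 210 K.t (K.s 405 K.t K.t)) (K.s 531 K.t (K.s 208 K.t K.t))) (K.s 1530 (K.s 648 K.t (K.s 207 K.t K.t)) (K.s 234 (K.s 225 K.t K.t) (K.s 133 K.t K.t)))))) (T.lf (K.s 7510 (K.s 3430 (K.s 760 (K.s 361 (K.s 166 K.z K.t) (K.s 129 K.t K.t)) (K.s 1050 (K.s 528 K.t K.t) (K.s 500 K.t K.t))) (K.s 2142 (K.s 285 K.t (K.s 571 K.t K.t)) (K.s 783 (K.s 72 K.t K.t) (K.s 135 K.t K.t)))) (K.s 1599 (K.s 897 (K.s 708 K.t (K.s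 99 K.t K.t)) (K.s 381 (K.s 378 K.t K.t) (K.s 267 K.t K.t))) (K.s 576 (K.s 196 (K.s 54 K.t K.t) (K.s 194 K.t K.t)) (K.s 1935 (K.s 725 K.t K.t) (K.s 140 K.t K.t))))))) (T.nd (T.lf (K.s 7415 (K.s 3854 (K.s 773 (K.s 224 (K.s 44 K.z K.t) (K.s 99 K.t K.t)) (K.s 1134 K.t (K.s 1863 K.t K.t))) (K.s 2805 (K.s 570 K.t (K.s 954 K.t K.t)) (K.s 315 K.t (K.s 360 K.t K.t)))) (K.s 1674 (K.s 1239 (K.s 729 K.t (K.s 405 K.t K.t)) (K.s 325 K.t (K.s 50 K.t K.t))) (K.s 1350 (K.s 153 K.t (K.s 576 K.t K.t)) (K.s 1215 K.t (K.s 918 K.t K.t)))))) (T.lf (K.s 6651 (K.s 4773 (K.s 3921 (K.s 201 (K.s 60 K.z K.t) (K.s 2115 K.t K.t)) (K.s 69 K.t (K.s 36 K.t K.t))) (K.s 972 (K.s 156 K.t (K.s 732 K.t K.t)) (K.s 441 (K.s 268 K.t K.t) (K.s 378 K.t K.t)))) (K.s 1740 (K.s 1377 (K.s 339 K.t (K.s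 522 K.t K.t)) (K.s 231 K.t (K.s 6 K.t K.t))) (K.s 630 (K.s 297 K.t (K.s 221 K.t K.t)) (K.s 2730 (K.s 49 K.t K.t) (K.s 687 K.t K.t)))))))) T.nil) T.nil))) T.nil) T.nil) T.nil

/-- part 14 of the values -/
noncomputable def t14 : T := T.nd (T.nd (T.nd (T.nd T.nil (T.nd T.nil (T.nd (T.nd T.nil (T.nd (T.nd (T.lf (K.s 7486 (K.s 3391 (K.s 1816 (K.s 934 (K.s 154 (K.s 12 K.z K.t) K.t) (K.s 45 K.t (K.s 540 K.t K.t))) (K.s 609 (K.s 450 K.t K.t) (K.s 336 K.t (K.s 405 K.t K.t)))) (K.s 2604 (K.s 1295 (K.s 1260 K.t K.t) (K.s 820 K.t (K.s 426 K.t K.t))) (K.s 591 (K.s 195 K.t (K.s 135 K.t K.t)) (K.s 207 K.t (K.s 315 K.t K.t))))) (K.s 2322 (K.s 1470 (K.s 675 (K.s 324 K.t K.t) (K.s 459 K.t (K.s 210 K.t K.t))) (K.s 393 (K.s 240 K.t K.t) (K.s 195 K.t (K.s 87 K.t K.t))))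 (K.s 2478 (K.s 756 (K.s 66 K.t K.t) (K.s 212 K.t (K.s 695 K.t K.t))) (K.s 1415 (K.s 335 K.t (K.s 535 K.t K.t)) (K.s 22 K.t (K.s 966 K.t K.t))))))) (T.lf (K.s 7166 (K.s 4043 (K.s 2732 (K.s 155 (K.s 48 K.z K.t) (K.s 2511 K.t K.t)) (K.s 886 (K.s 366 K.t K.t) (K.s 140 K.t K.t))) (K.s 2295 (K.s 633 (K.s 324 K.t K.t) (K.s 312 K.t K.t)) (K.s 750 (K.s 675 K.t K.t) (K.s 33 K.t K.t)))) (K.s 2277 (K.s 1422 (K.s 522 (K.s 36 K.t K.t) (K.s 423 K.t K.t)) (K.s 210 (K.s 135 K.t K.t) (K.s 105 K.t K.t))) (K.s 2313 (K.s 405 (K.s 363 K.t K.t) (K.s 1260 K.t K.t)) (K.s 819 (K.s 327 K.t K.t) (K.s 156 K.t K.t))))))) (T.nd (T.lf (K.s 7876 (K.s 3537 (K.s 1332 (K.s 612 (K.s 540 K.z K.t) (K.s 495 K.t K.t)) (K.s 1638 (K.s 342 K.t K.t) (K.s 135 K.t K.t))) (K.s 2820 (K.s 405 K.t (K.s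 1890 K.t K.t)) (K.s 1197 (K.s 438 K.t K.t) (K.s 273 K.t K.t)))) (K.s 1421 (K.s 875 (K.s 305 K.t (K.s 231 K.t K.t)) (K.s 336 (K.s 321 K.t K.t) (K.s 120 K.t K.t))) (K.s 1875 (K.s 90 K.t (K.s 1470 K.t K.t)) (K.s 960 (K.s 945 K.t K.t) (K.s 1233 K.t K.t)))))) (T.lf (K.s 8644 (K.s 5359 (K.s 2666 (K.s 1369 (K.s 964 K.z K.t) K.t) (K.s 2243 K.t (K.s 93 K.t K.t))) (K.s 2718 (K.s 1782 K.t K.t) (K.s 247 K.t (K.s 5 K.t K.t)))) (K.s 1413 (K.s 684 (K.s 9 K.t K.t) (K.s 144 K.t (K.s 381 K.t K.t))) (K.s 2787 (K.s 2177 K.t (K.s 460 K.t K.t)) (K.s 1216 K.t (K.s 549 K.t K.t))))))))) T.nil))) T.nil) T.nil) T.nil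

/-- part 15 of the values -/
noncomputable def t15 : T := T.nd (T.nd (T.nd (T.nd T.nil (T.nd (T.nd T.nil (T.nd (T.nd (T.nd (T.lf (K.s 6925 (K.s 3716 (K.s 2335 (K.s 1768 (K.s 178 K.z K.t) (K.s 135 K.t K.t)) (K.s 54 K.t (K.s 490 K.t K.t))) (K.s 839 (K.s 692 K.t (K.s 33 K.t K.t)) (K.s 552 K.t (K.s 1173 K.t K.t)))) (K.s 2205 (K.s 945 (K.s 720 K.t (K.s 63 K.t K.t)) (K.s 135 K.t (K.s 99 K.t K.t))) (K.s 1080 (K.s 140 K.t (K.s 630 K.t K.t)) (K.s 1818 K.t (K.s 952 K.t K.t)))))) (T.lf (K.s 6452 (K.s 1781 (K.s 1308 (K.s 512 (K.s 452 K.z K.t) K.t) (K.s 14 K.t (K.s 270 K.t K.t))) (K.s 2784 (K.s 1080 K.t K.t) (K.s 24 K.t (K.s 1173 K.t K.t)))) (K.s 2295 (K.s 588 (K.s 540 K.t K.t) (K.s 357 K.t (K.s 162 K.t K.t))) (K.s 2206 (K.s 513 K.t (K.s 597 K.t K.t)) (K.s 566 K.t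 (K.s 3265 K.t K.t))))))) (T.nd (T.lf (K.s 7458 (K.s 4599 (K.s 2526 (K.s 1545 (K.s 465 (K.s 168 K.z K.t) K.t) (K.s 88 K.t K.t)) (K.s 995 (K.s 720 K.t K.t) (K.s 655 K.t (K.s 213 K.t K.t)))) (K.s 1387 (K.s 1212 (K.s 510 K.t K.t) (K.s 27 K.t K.t)) (K.s 1406 (K.s 500 K.t K.t) (K.s 3 K.t (K.s 39 K.t K.t))))) (K.s 1530 (K.s 978 (K.s 522 (K.s 261 K.t K.t) (K.s 396 K.t K.t)) (K.s 265 (K.s 10 K.t K.t) (K.s 170 K.t (K.s 75 K.t K.t)))) (K.s 2898 (K.s 813 (K.s 378 K.t K.t) (K.s 78 K.t (K.s 1764 K.t K.t))) (K.s 621 (K.s 294 K.t K.t) (K.s 9 K.t (K.s 1260 K.t K.t))))))) (T.lf (K.s 7255 (K.s 703 (K.s 397 (K.s 142 (K.s 22 K.z K.t) (K.s 219 K.t K.t)) (K.s 144 K.t (K.s 57 K.t K.t))) (K.s 660 (K.s 105 K.t (K.s 390 K.t K.t)) (K.s 222 K.t (K.s 4050 K.t K.t)))) (K.s 1470 (K.s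 243 (K.s 81 K.t (K.s 99 K.t K.t)) (K.s 810 K.t (K.s 162 K.t K.t))) (K.s 1161 (K.s 366 K.t (K.s 432 K.t K.t)) (K.s 3492 K.t (K.s 600 K.t K.t)))))))) T.nil)) T.nil)) T.nil) T.nil) T.nil

/-- part 16 of the values -/
noncomputable def t16 : T := T.nd (T.nd (T.nd (T.nd T.nil (T.nd (T.nd T.nil (T.nd T.nil (T.nd (T.nd (T.lf (K.s 6773 (K.s 3398 (K.s 1508 (K.s 932 (K.s 863 K.z K.t) (K.s 189 K.t K.t)) (K.s 675 (K.s 495 K.t K.t) (K.s 600 K.t K.t))) (K.s 1860 (K.s 810 (K.s 54 K.t K.t) (K.s 735 K.t K.t)) (K.s 1059 (K.s 525 K.t K.t) (K.s 246 K.t K.t)))) (K.s 2853 (K.s 1335 (K.s 760 K.t (K.s 239 K.t K.t)) (K.s 177 (K.s 150 K.t K.t) (K.s 518 K.t K.t))) (K.s 819 (K.s 252 (K.s 180 K.t K.t) (K.s 210 K.t K.t)) (K.s 2667 (K.s 2268 K.t K.t) (K.s 617 K.t K.t)))))) (T.lf (K.s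 8820 (K.s 5769 (K.s 2952 (K.s 1350 (K.s 500 K.z K.t) (K.s 1170 K.t K.t)) (K.s 783 (K.s 468 K.t K.t) (K.s 756 K.t K.t))) (K.s 1071 (K.s 126 K.t (K.s 135 K.t K.t)) (K.s 1053 (K.s 360 K.t K.t) (K.s 567 K.t K.t)))) (K.s 1310 (K.s 612 (K.s 18 K.t (K.s 216 K.t K.t)) (K.s 342 (K.s 243 K.t K.t) (K.s 99 K.t K.t))) (K.s 1165 (K.s 559 K.t (K.s 471 K.t K.t)) (K.s 2079 (K.s 1683 K.t K.t) (K.s 234 K.t K.t))))))) (T.nd (T.lf (K.s 8197 (K.s 6739 (K.s 4066 (K.s 2365 (K.s 980 K.z K.t) (K.s 1544 K.t K.t)) (K.s 2073 K.t (K.s 513 K.t K.t))) (K.s 540 (K.s 115 K.t (K.s 338 K.t K.t)) (K.s 729 (K.s 285 K.t K.t) (K.s 141 K.t K.t)))) (K.s 1686 (K.s 567 (K.s 97 K.t (K.s 140 K.t K.t)) (K.s 405 K.t (K.s 405 K.t K.t))) (K.s 2193 (K.s 954 K.t (K.s 141 K.t K.t)) (K.s 2007 (K.s 1902 K.t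 K.t) (K.s 294 K.t K.t)))))) (T.lf (K.s 7751 (K.s 4871 (K.s 2444 (K.s 1199 (K.s 884 (K.s 201 K.z K.t) K.t) (K.s 570 K.t K.t)) (K.s 771 (K.s 582 K.t K.t) (K.s 954 K.t (K.s 477 K.t K.t)))) (K.s 1260 (K.s 360 (K.s 45 K.t K.t) (K.s 873 K.t K.t)) (K.s 495 (K.s 450 K.t K.t) (K.s 90 K.t (K.s 954 K.t K.t))))) (K.s 1944 (K.s 1053 (K.s 750 (K.s 318 K.t K.t) (K.s 150 K.t K.t)) (K.s 357 (K.s 327 K.t K.t) (K.s 361 K.t (K.s 164 K.t K.t)))) (K.s 1878 (K.s 846 (K.s 54 K.t K.t) (K.s 825 K.t K.t)) (K.s 1088 (K.s 903 K.t K.t) (K.s 355 K.t (K.s 260 K.t K.t))))))))))) T.nil)) T.nil) T.nil) T.nil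

/-- part 17 of the values -/
noncomputable def t17 : T := T.nd (T.nd (T.nd (T.nd T.nil (T.nd T.nil (T.nd T.nil (T.nd (T.nd (T.nd (T.lf (K.s 8183 (K.s 4592 (K.s 2522 (K.s 1892 (K.s 362 K.z K.t) (K.s 495 K.t K.t)) (K.s 1530 (K.s 1233 K.t K.t) (K.s 225 K.t K.t))) (K.s 2292 (K.s 1512 (K.s 405 K.t K.t) (K.s 318 K.t K.t)) (K.s 439 (K.s 3 K.t K.t) (K.s 573 K.t K.t)))) (K.s 1704 (K.s 729 (K.s 196 (K.s 174 K.t K.t) (K.s 408 K.t K.t)) (K.s 594 (K.s 90 K.t K.t) (K.s 81 K.t K.t))) (K.s 3345 (K.s 1320 (K.s 1275 K.t K.t) (K.s 270 K.t K.t)) (K.s 285 (K.s 210 K.t K.t) (K.s 1156 K.t K.t)))))) (T.lf (K.s 7791 (K.s 6468 (K.s 3012 (K.s 1074 (K.s 7 K.z K.t) (K.s 1668 K.t K.t)) (K.s 2007 K.t (K.s 1026 K.t K.t))) (K.s 729 (K.s 81 K.t (K.s 450 K.t K.t)) (K.s 42 K.t (K.s 255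 K.t K.t)))) (K.s 1998 (K.s 883 (K.s 108 K.t (K.s 189 K.t K.t)) (K.s 305 K.t (K.s 495 K.t K.t))) (K.s 3965 (K.s 195 K.t (K.s 1227 K.t K.t)) (K.s 20 K.t (K.s 565 K.t K.t))))))) (T.nd (T.lf (K.s 7264 (K.s 3046 (K.s 1480 (K.s 253 (K.s 103 K.z K.t) (K.s 361 K.t K.t)) (K.s 1458 K.t (K.s 105 K.t K.t))) (K.s 1293 (K.s 522 K.t (K.s 693 K.t K.t)) (K.s 1704 (K.s 100 K.t K.t) (K.s 486 K.t K.t)))) (K.s 2409 (K.s 1344 (K.s 363 K.t (K.s 906 K.t K.t)) (K.s 108 K.t (K.s 567 K.t K.t))) (K.s 3489 (K.s 90 K.t (K.s 1680 K.t K.t)) (K.s 1056 (K.s 756 K.t K.t) (K.s 294 K.t K.t)))))) (T.lf (K.s 6350 (K.s 3860 (K.s 2969 (K.s 575 (K.s 440 K.z K.t) K.t) (K.s 511 K.t (K.s 371 K.t K.t))) (K.s 615 (K.s 441 K.t K.t) (K.s 405 K.t (K.s 1122 K.t K.t)))) (K.s 3000 (K.s 1218 (K.s 1110 K.t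 K.t) (K.s 1596 K.t (K.s 126 K.t K.t))) (K.s 1770 (K.s 318 K.t (K.s 141 K.t K.t)) (K.s 323 K.t (K.s 832 K.t K.t)))))))) T.nil)))) T.nil) T.nil) T.nil

/-- part 18 of the values -/
noncomputable def t18 : T := T.nd (T.nd (T.nd (T.nd T.nil (T.nd T.nil (T.nd T.nil (T.nd T.nil (T.nd (T.nd (T.lf (K.s 7986 (K.s 4710 (K.s 1770 (K.s 1659 (K.s 265 K.z K.t) (K.s 81 K.t K.t)) (K.s 2076 K.t (K.s 81 K.t K.t))) (K.s 1485 (K.s 540 K.t (K.s 30 K.t K.t)) (K.s 1320 (K.s 189 K.t K.t) (K.s 213 K.t K.t)))) (K.s 1287 (K.s 939 (K.s 798 K.t (K.s 84 K.t K.t)) (K.s 240 K.t (K.s 15 K.t K.t))) (K.s 2192 (K.s 189 K.t (K.s 1023 K.t K.t)) (K.s 3028 (K.s 2430 K.t K.t) (K.s 304 K.t K.t)))))) (T.lf (K.s 6442 (K.s 3340 (K.s 1969 (K.s 1348 (K.s 775 K.z K.t) (K.s 324 K.t K.t)) (K.s 1008 (K.s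 513 K.t K.t) (K.s 333 K.t K.t))) (K.s 1320 (K.s 789 (K.s 627 K.t K.t) (K.s 378 K.t K.t)) (K.s 977 (K.s 522 K.t K.t) (K.s 490 K.t K.t)))) (K.s 2250 (K.s 1209 (K.s 410 (K.s 360 K.t K.t) (K.s 605 K.t K.t)) (K.s 891 (K.s 276 K.t K.t) (K.s 42 K.t K.t))) (K.s 585 (K.s 189 (K.s 108 K.t K.t) (K.s 270 K.t K.t)) (K.s 1350 (K.s 91 K.t K.t) (K.s 900 K.t K.t))))))) (T.nd (T.lf (K.s 7781 (K.s 5621 (K.s 1841 (K.s 1308 (K.s 746 K.z K.t) K.t) (K.s 50 K.t K.t)) (K.s 1404 (K.s 525 K.t K.t) (K.s 36 K.t (K.s 60 K.t K.t)))) (K.s 1458 (K.s 756 (K.s 750 K.t K.t) (K.s 108 K.t K.t)) (K.s 2322 (K.s 234 K.t K.t) (K.s 833 K.t (K.s 68 K.t K.t)))))) (T.lf (K.s 8022 (K.s 4833 (K.s 3186 (K.s 1533 (K.s 1512 K.z K.t) (K.s 600 K.t K.t)) (K.s 387 K.t (K.s 903 K.t K.t))) (K.s 1908 (K.s 1341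 K.t (K.s 315 K.t K.t)) (K.s 459 K.t (K.s 108 K.t K.t)))) (K.s 1311 (K.s 384 (K.s 231 K.t (K.s 45 K.t K.t)) (K.s 522 K.t (K.s 216 K.t K.t))) (K.s 3375 (K.s 405 K.t (K.s 2925 K.t K.t)) (K.s 1330 K.t (K.s 35 K.t K.t)))))))))))) T.nil) T.nil) T.nil

/-- part 19 of the values -/
noncomputable def t19 : T := T.nd (T.nd T.nil (T.nd (T.nd (T.nd (T.nd (T.nd (T.nd (T.nd (T.lf (K.s 12494 (K.s 4079 K.z K.t) K.t)) (T.lf (K.s 204 K.z K.t))) (T.nd (T.lf (K.s 8725 (K.s 7696 (K.s 805 K.z K.t) K.t) (K.s 3420 K.t (K.s 2665 K.t K.t)))) (T.lf (K.s 5219 K.z K.t)))) (T.nd (T.nd T.nil (T.lf (K.s 13868 K.z K.t))) (T.nd (T.lf (K.s 9732 K.z K.t)) (T.lf (K.s 4801 (K.s 2589 K.z K.t) (K.s 4199 K.t K.t)))))) T.nil) T.nil) T.nil) T.nil)) T.nil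

/-- part 20 of the values -/
noncomputable def t20 : T := T.nd (T.nd (T.nd T.nil (T.nd (T.nd (T.nd (T.nd (T.nd (T.nd (T.lf (K.s 8158 (K.s 5288 (K.s 3028 (K.s 2191 K.z K.t) (K.s 1441 K.t K.t)) (K.s 170 K.t (K.s 2025 K.t K.t))) (K.s 546 (K.s 105 K.t (K.s 120 K.t K.t)) (K.s 3234 (K.s 1704 K.t K.t) (K.s 594 K.t K.t))))) (T.lf (K.s 9260 (K.s 9044 (K.s 4940 (K.s 890 K.z K.t) K.t) (K.s 186 K.t K.t)) (K.s 4305 (K.s 1908 K.t K.t) (K.s 795 K.t K.t))))) (T.nd (T.lf (K.s 9339 (K.s 6666 (K.s 6342 K.z K.t) (K.s 2418 K.t K.t)) (K.s 1575 (K.s 525 K.t K.t) (K.s 1575 K.t K.t)))) (T.lf (K.s 8416 (K.s 3700 (K.s 181 K.z K.t) (K.s 2476 K.t K.t)) (K.s 4635 (K.s 1260 K.t K.t) (K.s 1774 K.t K.t)))))) (T.nd (T.nd (T.lf (K.s 8141 (K.s 3971 (K.s 968 (K.s 689 K.z K.t) K.t) (K.s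 435 K.t (K.s 3573 K.t K.t))) (K.s 1845 (K.s 135 K.t K.t) (K.s 2247 K.t (K.s 327 K.t K.t))))) (T.lf (K.s 3969 (K.s 3723 (K.s 2448 K.z K.t) (K.s 76 K.t K.t)) (K.s 1734 (K.s 1548 K.t K.t) (K.s 1911 K.t K.t))))) (T.nd (T.lf (K.s 8182 (K.s 7891 (K.s 7567 (K.s 4921 K.z K.t) K.t) (K.s 171 K.t K.t)) (K.s 1821 (K.s 835 K.t K.t) (K.s 868 K.t K.t)))) (T.lf (K.s 8709 (K.s 7292 (K.s 5204 (K.s 542 K.z K.t) K.t) (K.s 792 K.t (K.s 181 K.t K.t))) (K.s 2300 (K.s 749 K.t (K.s 219 K.t K.t)) (K.s 495 K.t (K.s 1260 K.t K.t)))))))) T.nil) T.nil) T.nil)) T.nil) T.nil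

/-- part 21 of the values -/
noncomputable def t21 : T := T.nd (T.nd T.nil (T.nd T.nil (T.nd (T.nd (T.nd (T.nd (T.nd (T.nd (T.lf (K.s 9645 (K.s 5847 (K.s 3562 K.z K.t) (K.s 1581 K.t K.t)) (K.s 2061 K.t (K.s 3025 K.t K.t)))) (T.lf (K.s 11450 (K.s 7550 K.z K.t) K.t))) (T.nd T.nil (T.lf (K.s 2442 (K.s 1200 K.z K.t) K.t)))) (T.nd (T.nd (T.lf (K.s 9142 K.z K.t)) (T.lf (K.s 3296 K.z K.t))) (T.nd (T.lf (K.s 7731 (K.s 3057 (K.s 2196 K.z K.t) K.t) (K.s 1644 K.t K.t))) (T.lf (K.s 869 K.z K.t))))) T.nil) T.nil) T.nil))) T.nil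

/-- part 22 of the values -/
noncomputable def t22 : T := T.nd (T.nd T.nil (T.nd (T.nd T.nil (T.nd (T.nd (T.nd (T.nd (T.nd (T.lf (K.s 7336 (K.s 6580 (K.s 6166 (K.s 1642 K.z K.t) K.t) (K.s 711 K.t K.t)) (K.s 1554 (K.s 1224 K.t K.t) (K.s 5655 K.t K.t)))) (T.lf (K.s 13757 (K.s 11342 (K.s 1178 K.z K.t) (K.s 1965 K.t K.t)) (K.s 325 K.t (K.s 221 K.t K.t))))) (T.nd (T.lf (K.s 10551 (K.s 7116 (K.s 3147 (K.s 696 K.z K.t) (K.s 2805 K.t K.t)) (K.s 1356 (K.s 474 K.t K.t) (K.s 609 K.t K.t))) (K.s 1995 (K.s 1008 K.t (K.s 588 K.t K.t)) (K.s 1722 (K.s 301 K.t K.t) (K.s 423 K.t K.t))))) (T.lf (K.s 8134 (K.s 4949 (K.s 4921 (K.s 4459 K.z K.t) K.t) (K.s 2249 K.t K.t)) (K.s 2364 (K.s 1821 K.t K.t) (K.s 1437 K.t (K.s 2805 K.t K.t))))))) (T.nd (T.nd (T.lf (K.s 12935 (K.s 9005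 (K.s 8378 K.z K.t) K.t) (K.s 333 K.t (K.s 807 K.t K.t)))) (T.lf (K.s 13365 (K.s 12375 (K.s 7149 (K.s 45 K.z K.t) K.t) (K.s 240 K.t K.t)) (K.s 1287 (K.s 816 K.t K.t) (K.s 180 K.t (K.s 3 K.t K.t)))))) (T.nd (T.lf (K.s 8605 (K.s 3469 (K.s 1984 K.z K.t) (K.s 4599 K.t K.t)) (K.s 1273 K.t (K.s 2522 K.t K.t)))) (T.lf (K.s 7676 (K.s 4151 (K.s 3308 (K.s 935 K.z K.t) (K.s 589 K.t K.t)) (K.s 2337 (K.s 1350 K.t K.t) (K.s 495 K.t K.t))) (K.s 3636 (K.s 2985 (K.s 504 K.t K.t) (K.s 501 K.t K.t)) (K.s 3448 (K.s 2274 K.t K.t) (K.s 77 K.t K.t)))))))) T.nil) T.nil)) T.nil)) T.nil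

/-- part 23 of the values -/
noncomputable def t23 : T := T.nd (T.nd (T.nd T.nil (T.nd T.nil (T.nd (T.nd (T.nd (T.nd (T.nd (T.lf (K.s 9354 (K.s 5574 (K.s 3747 K.z K.t) (K.s 2205 K.t K.t)) (K.s 2395 K.t (K.s 530 K.t K.t)))) (T.lf (K.s 5353 (K.s 4112 (K.s 301 (K.s 196 (K.s 151 K.z K.t) K.t) (K.s 2937 K.t K.t)) (K.s 800 (K.s 329 K.t K.t) (K.s 414 K.t K.t))) (K.s 2016 (K.s 1413 (K.s 963 K.t K.t) (K.s 495 K.t K.t)) (K.s 1017 (K.s 147 K.t K.t) (K.s 846 K.t K.t)))))) (T.nd (T.lf (K.s 6231 (K.s 5159 (K.s 5108 K.z K.t) (K.s 39 K.t K.t)) (K.s 3647 (K.s 1469 K.t K.t) (K.s 4587 K.t K.t)))) (T.lf (K.s 8172 (K.s 6512 (K.s 4770 (K.s 495 K.z K.t) K.t) (K.s 715 K.t (K.s 378 K.t K.t))) (K.s 1053 (K.s 45 K.t (K.s 222 K.t K.t)) (K.s 522 K.t (K.s 2070 K.t K.t))))))) (T.nd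 (T.nd (T.lf (K.s 3127 (K.s 1597 (K.s 427 (K.s 10 K.z K.t) K.t) (K.s 330 K.t (K.s 741 K.t K.t))) (K.s 4905 (K.s 594 K.t (K.s 3996 K.t K.t)) (K.s 594 K.t (K.s 4521 K.t K.t))))) (T.lf (K.s 8027 (K.s 2735 (K.s 1538 (K.s 89 K.z K.t) (K.s 225 K.t K.t)) (K.s 2008 (K.s 1479 K.t K.t) (K.s 2546 K.t K.t))) (K.s 1377 (K.s 567 K.t (K.s 216 K.t K.t)) (K.s 316 (K.s 225 K.t K.t) (K.s 5057 K.t K.t)))))) (T.nd (T.lf (K.s 9843 (K.s 7963 (K.s 3507 (K.s 2061 K.z K.t) K.t) (K.s 467 K.t (K.s 648 K.t K.t))) (K.s 1860 (K.s 1035 K.t K.t) (K.s 462 K.t (K.s 903 K.t K.t))))) (T.lf (K.s 8335 (K.s 5914 (K.s 4825 (K.s 2599 K.z K.t) K.t) (K.s 207 K.t (K.s 1791 K.t K.t))) (K.s 1063 (K.s 900 K.t K.t) (K.s 179 K.t (K.s 144 K.t K.t)))))))) T.nil) T.nil))) T.nil) T.nil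

/-- part 24 of the values -/
noncomputable def t24 : T := T.nd (T.nd T.nil (T.nd T.nil (T.nd T.nil (T.nd (T.nd (T.nd (T.nd (T.nd (T.lf (K.s 13767 (K.s 6987 K.z K.t) (K.s 611 K.t K.t))) (T.lf (K.s 11340 (K.s 8326 (K.s 4491 K.z K.t) K.t) (K.s 1314 K.t K.t)))) (T.nd (T.lf (K.s 7208 (K.s 1223 K.z K.t) K.t)) (T.lf (K.s 13287 (K.s 7121 K.z K.t) K.t)))) (T.nd (T.nd (T.lf (K.s 6432 (K.s 1222 K.z K.t) K.t)) (T.lf (K.s 8704 (K.s 847 K.z K.t) K.t))) (T.nd (T.lf (K.s 9637 (K.s 4968 K.z K.t) (K.s 5186 K.t K.t))) (T.lf (K.s 9024 (K.s 2115 K.z K.t) K.t))))) T.nil) T.nil)))) T.nil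

/-- part 25 of the values -/
noncomputable def t25 : T := T.nd (T.nd T.nil (T.nd (T.nd (T.nd T.nil (T.nd (T.nd (T.nd (T.nd (T.lf (K.s 9582 (K.s 6096 (K.s 3708 (K.s 558 K.z K.t) (K.s 210 K.t K.t)) (K.s 732 K.t (K.s 2004 K.t K.t))) (K.s 3924 (K.s 564 K.t (K.s 2040 K.t K.t)) (K.s 1122 K.t (K.s 54 K.t K.t))))) T.nil) (T.nd (T.lf (K.s 13238 (K.s 8597 (K.s 5813 (K.s 227 K.z K.t) (K.s 1800 K.t K.t)) (K.s 871 K.t (K.s 746 K.t K.t))) (K.s 1239 (K.s 924 K.t (K.s 192 K.t K.t)) (K.s 336 (K.s 240 K.t K.t) (K.s 9 K.t K.t))))) (T.lf (K.s 8484 K.z K.t)))) (T.nd (T.nd (T.lf (K.s 5869 (K.s 406 (K.s 91 K.z K.t) K.t) (K.s 8091 K.t K.t))) (T.lf (K.s 2751 (K.s 572 K.z K.t) (K.s 7104 K.t K.t)))) (T.nd (T.lf (K.s 12684 (K.s 11461 K.z K.t) K.t)) (T.lf (K.s 14732 (K.s 8026 K.z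 K.t) K.t))))) T.nil)) T.nil) T.nil)) T.nil

/-- part 26 of the values -/
noncomputable def t26 : T := T.nd (T.nd (T.nd T.nil (T.nd (T.nd T.nil (T.nd (T.nd (T.nd (T.nd (T.lf (K.s 8093 (K.s 3746 (K.s 3140 K.z K.t) (K.s 1554 K.t K.t)) (K.s 567 K.t (K.s 3615 K.t K.t)))) (T.lf (K.s 4002 (K.s 2382 (K.s 1464 (K.s 1167 K.z K.t) K.t) (K.s 1080 K.t K.t)) (K.s 2970 (K.s 2085 K.t K.t) (K.s 5247 K.t (K.s 847 K.t K.t)))))) (T.nd (T.lf (K.s 6331 (K.s 4291 (K.s 2281 (K.s 1441 K.z K.t) K.t) (K.s 1005 K.t K.t)) (K.s 1821 (K.s 486 K.t K.t) (K.s 339 K.t (K.s 4059 K.t K.t))))) (T.lf (K.s 6323 (K.s 3957 (K.s 2855 (K.s 317 K.z K.t) (K.s 234 K.t K.t)) (K.s 1757 (K.s 1451 K.t K.t) (K.s 396 K.t K.t))) (K.s 3045 (K.s 84 K.t (K.s 1837 K.t K.t)) (K.s 630 (K.s 378 K.t K.t) (K.s 2205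 K.t K.t))))))) (T.nd (T.nd (T.lf (K.s 8743 (K.s 6558 (K.s 5601 (K.s 1533 K.z K.t) K.t) (K.s 1506 K.t (K.s 123 K.t K.t))) (K.s 800 (K.s 134 K.t K.t) (K.s 180 K.t (K.s 1659 K.t K.t))))) (T.lf (K.s 4903 (K.s 2653 (K.s 895 (K.s 871 K.z K.t) (K.s 1416 K.t K.t)) (K.s 1035 (K.s 792 K.t K.t) (K.s 252 K.t K.t))) (K.s 3672 (K.s 1890 (K.s 927 K.t K.t) (K.s 297 K.t K.t)) (K.s 1260 (K.s 315 K.t K.t) (K.s 45 K.t K.t)))))) (T.nd (T.lf (K.s 4289 (K.s 1151 (K.s 530 (K.s 194 K.z K.t) K.t) (K.s 2385 K.t (K.s 55 K.t K.t))) (K.s 2835 (K.s 1062 K.t (K.s 558 K.t K.t)) (K.s 1615 K.t (K.s 1130 K.t K.t))))) (T.lf (K.s 7341 (K.s 4536 (K.s 4420 (K.s 3681 K.z K.t) K.t) (K.s 1044 K.t (K.s 1162 K.t K.t))) (K.s 954 (K.s 255 K.t K.t) (K.s 1416 K.t (K.s 5025 K.t K.t)))))))) T.nil)) T.nil))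 T.nil) T.nil

/-- part 27 of the values -/
noncomputable def t27 : T := T.nd (T.nd T.nil (T.nd T.nil (T.nd (T.nd T.nil (T.nd (T.nd (T.nd (T.nd (T.lf (K.s 3289 (K.s 2219 K.z K.t) (K.s 3655 K.t K.t))) (T.lf (K.s 5267 (K.s 2007 K.z K.t) K.t))) (T.nd (T.lf (K.s 9060 K.z K.t)) (T.lf (K.s 13862 (K.s 12421 K.z K.t) K.t)))) (T.nd (T.nd (T.lf (K.s 14811 (K.s 8672 K.z K.t) K.t)) (T.lf (K.s 10305 (K.s 9819 (K.s 9655 K.z K.t) K.t) (K.s 2665 K.t K.t)))) (T.nd (T.lf (K.s 5083 (K.s 133 K.z K.t) (K.s 4509 K.t K.t))) (T.lf (K.s 10325 K.z K.t))))) T.nil)) T.nil))) T.nil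

/-- part 28 of the values -/
noncomputable def t28 : T := T.nd (T.nd T.nil (T.nd (T.nd T.nil (T.nd T.nil (T.nd (T.nd (T.nd (T.nd (T.lf (K.s 6471 (K.s 5102 K.z K.t) (K.s 2717 K.t K.t))) (T.lf (K.s 9889 (K.s 3795 K.z K.t) K.t))) (T.nd (T.lf (K.s 13744 K.z K.t)) (T.lf (K.s 12570 K.z K.t)))) (T.nd (T.nd (T.lf (K.s 4005 K.z K.t)) (T.lf (K.s 9868 K.z K.t))) (T.nd (T.lf (K.s 7917 (K.s 3261 K.z K.t) (K.s 2075 K.t K.t))) (T.lf (K.s 9273 (K.s 1284 K.z K.t) (K.s 4836 K.t K.t)))))) T.nil))) T.nil)) T.nil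

/-- part 29 of the values -/
noncomputable def t29 : T := T.nd (T.nd (T.nd T.nil (T.nd T.nil (T.nd T.nil (T.nd (T.nd (T.nd (T.nd (T.lf (K.s 7561 (K.s 5293 (K.s 4564 (K.s 2782 K.z K.t) K.t) (K.s 891 K.t K.t)) (K.s 1728 (K.s 594 K.t K.t) (K.s 3456 K.t (K.s 1521 K.t K.t))))) (T.lf (K.s 8240 (K.s 5279 (K.s 4244 (K.s 2363 (K.s 1823 K.z K.t) K.t) (K.s 711 K.t K.t)) (K.s 954 (K.s 864 K.t K.t) (K.s 360 K.t K.t))) (K.s 1620 (K.s 954 (K.s 36 K.t K.t) (K.s 465 K.t K.t)) (K.s 3069 (K.s 2727 K.t K.t) (K.s 1090 K.t K.t)))))) (T.nd (T.lf (K.s 7194 (K.s 2532 (K.s 1713 (K.s 1686 K.z K.t) (K.s 756 K.t K.t)) (K.s 610 K.t (K.s 146 K.t K.t))) (K.s 2673 (K.s 2196 K.t (K.s 9 K.t K.t)) (K.s 2206 K.t (K.s 2558 K.t K.t))))) (T.lf (K.s 8674 (K.s 7069 (K.s 4894 (K.s 4432 K.z K.t)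 (K.s 1557 K.t K.t)) (K.s 1490 K.t (K.s 34 K.t K.t))) (K.s 4635 (K.s 351 K.t (K.s 450 K.t K.t)) (K.s 615 K.t (K.s 889 K.t K.t))))))) (T.nd (T.nd (T.lf (K.s 8993 (K.s 5978 (K.s 2594 K.z K.t) (K.s 669 K.t K.t)) (K.s 1359 K.t (K.s 2697 K.t K.t)))) (T.lf (K.s 7746 (K.s 6267 (K.s 2886 (K.s 2211 K.z K.t) K.t) (K.s 1104 K.t (K.s 30 K.t K.t))) (K.s 3660 (K.s 775 K.t (K.s 1281 K.t K.t)) (K.s 525 K.t (K.s 2115 K.t K.t)))))) (T.nd (T.lf (K.s 8320 (K.s 6365 (K.s 4216 (K.s 1903 K.z K.t) (K.s 333 K.t K.t)) (K.s 410 K.t (K.s 600 K.t K.t))) (K.s 4389 (K.s 945 K.t (K.s 1635 K.t K.t)) (K.s 481 (K.s 231 K.t K.t) (K.s 197 K.t K.t))))) (T.lf (K.s 6377 (K.s 5225 (K.s 1547 K.z K.t) (K.s 327 K.t K.t)) (K.s 1758 K.t (K.s 792 K.t K.t))))))) T.nil)))) T.nil) T.nil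

/-- part 30 of the values -/
noncomputable def t30 : T := T.nd (T.nd T.nil (T.nd T.nil (T.nd T.nil (T.nd T.nil (T.nd (T.nd (T.nd (T.nd T.nil (T.lf (K.s 7642 (K.s 1763 K.z K.t) K.t))) (T.nd (T.lf (K.s 9338 K.z K.t)) (T.lf (K.s 1449 K.z K.t)))) (T.nd (T.nd (T.lf (K.s 8447 K.z K.t)) (T.lf (K.s 5702 (K.s 525 K.z K.t) K.t))) (T.nd (T.lf (K.s 7369 (K.s 30 K.z K.t) (K.s 2399 K.t K.t))) (T.lf (K.s 5017 (K.s 2206 (K.s 276 K.z K.t) K.t) (K.s 8080 K.t K.t)))))) T.nil))))) T.nil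

/-- part 31 of the values -/
noncomputable def t31 : T := T.nd (T.nd T.nil (T.nd (T.nd (T.nd (T.nd T.nil (T.nd (T.nd (T.nd (T.lf (K.s 9494 (K.s 347 (K.s 232 K.z K.t) K.t) (K.s 2015 K.t K.t))) (T.lf (K.s 8330 K.z K.t))) (T.nd (T.lf (K.s 9799 (K.s 7518 K.z K.t) K.t)) (T.lf (K.s 10111 K.z K.t)))) (T.nd (T.nd (T.lf (K.s 11546 (K.s 3402 K.z K.t) K.t)) T.nil) (T.nd (T.lf (K.s 10801 (K.s 3002 K.z K.t) K.t)) (T.lf (K.s 1170 K.z K.t)))))) T.nil) T.nil) T.nil)) T.nil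

/-- part 32 of the values -/
noncomputable def t32 : T := T.nd (T.nd (T.nd T.nil (T.nd (T.nd (T.nd T.nil (T.nd (T.nd (T.nd (T.lf (K.s 8244 (K.s 7182 (K.s 3681 (K.s 2337 K.z K.t) K.t) (K.s 435 K.t K.t)) (K.s 3948 (K.s 912 K.t K.t) (K.s 120 K.t K.t)))) (T.lf (K.s 7699 (K.s 4234 (K.s 1309 (K.s 1129 K.z K.t) K.t) (K.s 405 K.t (K.s 2475 K.t K.t))) (K.s 1233 (K.s 675 K.t K.t) (K.s 687 K.t (K.s 1240 K.t K.t)))))) (T.nd (T.lf (K.s 9884 (K.s 3038 (K.s 2081 (K.s 497 K.z K.t) K.t) (K.s 4219 K.t K.t)) (K.s 1674 (K.s 606 K.t K.t) (K.s 1890 K.t K.t)))) (T.lf (K.s 6294 (K.s 4011 (K.s 1840 (K.s 736 K.z K.t) K.t) (K.s 1917 K.t K.t)) (K.s 2631 (K.s 2271 K.t K.t) (K.s 1755 K.t K.t)))))) (T.nd (T.nd (T.lf (K.s 8713 (K.s 7075 (K.s 3316 (K.s 658 K.z K.t) K.t) (K.s 154 K.t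 (K.s 896 K.t K.t))) (K.s 2916 (K.s 162 K.t K.t) (K.s 621 K.t (K.s 285 K.t K.t))))) (T.lf (K.s 8186 (K.s 5732 (K.s 2027 K.z K.t) K.t) (K.s 1566 K.t K.t)))) (T.nd (T.lf (K.s 9741 (K.s 5439 (K.s 4413 (K.s 1156 K.z K.t) K.t) (K.s 1200 K.t (K.s 2142 K.t K.t))) (K.s 2475 (K.s 2400 K.t K.t) (K.s 495 K.t (K.s 660 K.t K.t))))) (T.lf (K.s 4318 (K.s 3058 (K.s 2728 K.z K.t) (K.s 1086 K.t K.t)) (K.s 6825 (K.s 4149 K.t K.t) (K.s 330 K.t K.t)))))))) T.nil) T.nil)) T.nil) T.nil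

/-- part 33 of the values -/
noncomputable def t33 : T := T.nd (T.nd T.nil (T.nd T.nil (T.nd (T.nd (T.nd T.nil (T.nd (T.nd (T.nd (T.lf (K.s 4800 (K.s 4610 K.z K.t) K.t)) (T.lf (K.s 8412 K.z K.t))) (T.nd (T.lf (K.s 4981 (K.s 4028 (K.s 1418 K.z K.t) K.t) (K.s 5571 K.t (K.s 2421 K.t K.t)))) T.nil)) (T.nd (T.nd (T.lf (K.s 4218 (K.s 1803 K.z K.t) (K.s 10086 K.t K.t))) (T.lf (K.s 10096 (K.s 6062 K.z K.t) K.t))) (T.nd (T.lf (K.s 12135 (K.s 7475 K.z K.t) K.t)) T.nil)))) T.nil) T.nil))) T.nil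

/-- part 34 of the values -/
noncomputable def t34 : T := T.nd (T.nd T.nil (T.nd (T.nd T.nil (T.nd (T.nd T.nil (T.nd (T.nd (T.nd (T.lf (K.s 10015 (K.s 8088 K.z K.t) K.t)) (T.lf (K.s 2971 (K.s 136 K.z K.t) (K.s 6000 K.t K.t)))) (T.nd (T.lf (K.s 6326 K.z K.t)) (T.lf (K.s 5116 K.z K.t)))) (T.nd (T.nd (T.lf (K.s 11537 (K.s 7972 K.z K.t) K.t)) (T.lf (K.s 8024 (K.s 3720 (K.s 1289 K.z K.t) K.t) (K.s 5100 K.t K.t)))) (T.nd (T.lf (K.s 11862 K.z K.t)) (T.lf (K.s 2801 (K.s 2606 K.z K.t) (K.s 5403 K.t K.t))))))) T.nil)) T.nil)) T.nil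

/-- part 35 of the values -/
noncomputable def t35 : T := T.nd (T.nd (T.nd T.nil (T.nd T.nil (T.nd (T.nd T.nil (T.nd (T.nd (T.nd (T.lf (K.s 8495 (K.s 6578 (K.s 4685 (K.s 1664 K.z K.t) K.t) (K.s 1320 K.t (K.s 396 K.t K.t))) (K.s 1206 (K.s 162 K.t K.t) (K.s 87 K.t (K.s 2985 K.t K.t))))) (T.lf (K.s 7815 (K.s 1200 (K.s 300 (K.s 141 K.z K.t) K.t) (K.s 3150 K.t (K.s 2754 K.t K.t))) (K.s 1890 (K.s 585 K.t (K.s 60 K.t K.t)) (K.s 882 K.t (K.s 858 K.t K.t)))))) (T.nd (T.lf (K.s 6814 (K.s 3304 (K.s 2323 (K.s 1576 K.z K.t) (K.s 243 K.t K.t)) (K.s 15 K.t (K.s 3117 K.t K.t))) (K.s 5820 (K.s 2457 K.t (K.s 154 K.t K.t)) (K.s 984 K.t (K.s 712 K.t K.t))))) (T.lf (K.s 8609 (K.s 3506 (K.s 887 K.z K.t) (K.s 4305 K.t K.t)) (K.s 621 K.t (K.s 324 K.t K.t)))))) (T.nd (T.nd (T.lf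 (K.s 8991 (K.s 5940 (K.s 5737 (K.s 3381 K.z K.t) K.t) (K.s 51 K.t (K.s 588 K.t K.t))) (K.s 450 (K.s 99 K.t (K.s 162 K.t K.t)) (K.s 1854 K.t (K.s 1866 K.t K.t))))) (T.lf (K.s 8113 (K.s 3523 (K.s 2128 (K.s 1958 K.z K.t) K.t) (K.s 1980 K.t K.t)) (K.s 1917 (K.s 1764 K.t K.t) (K.s 1317 K.t (K.s 1536 K.t K.t)))))) (T.nd (T.lf (K.s 5897 (K.s 4367 (K.s 2942 (K.s 2636 K.z K.t) K.t) (K.s 990 K.t K.t)) (K.s 1683 (K.s 990 K.t K.t) (K.s 3942 K.t K.t)))) (T.lf (K.s 8934 (K.s 4794 (K.s 2679 (K.s 2544 K.z K.t) K.t) (K.s 2967 K.t K.t)) (K.s 2169 (K.s 1610 K.t K.t) (K.s 3547 K.t K.t)))))))) T.nil))) T.nil) T.nil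

/-- part 36 of the values -/
noncomputable def t36 : T := T.nd (T.nd T.nil (T.nd T.nil (T.nd T.nil (T.nd (T.nd T.nil (T.nd (T.nd (T.nd T.nil (T.lf (K.s 8540 (K.s 8154 K.z K.t) (K.s 2589 K.t K.t)))) (T.nd (T.lf (K.s 6798 (K.s 5517 K.z K.t) K.t)) (T.lf (K.s 11779 K.z K.t)))) (T.nd (T.nd (T.lf (K.s 2586 (K.s 761 K.z K.t) (K.s 5634 K.t K.t))) (T.lf (K.s 10906 (K.s 9883 K.z K.t) K.t))) (T.nd T.nil (T.lf (K.s 9188 (K.s 1677 K.z K.t) K.t)))))) T.nil)))) T.nil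

/-- part 37 of the values -/
noncomputable def t37 : T := T.nd (T.nd T.nil (T.nd (T.nd (T.nd T.nil (T.nd T.nil (T.nd (T.nd (T.nd (T.lf (K.s 10221 (K.s 8934 K.z K.t) K.t)) (T.lf (K.s 9046 (K.s 1843 K.z K.t) K.t))) (T.nd (T.lf (K.s 7531 K.z K.t)) (T.lf (K.s 6609 (K.s 6384 K.z K.t) (K.s 3248 K.t K.t))))) (T.nd (T.nd (T.lf (K.s 11730 (K.s 5955 (K.s 2793 (K.s 1440 (K.s 498 K.z K.t) K.t) (K.s 411 K.t K.t)) (K.s 4293 (K.s 2523 K.t K.t) (K.s 1020 K.t K.t))) (K.s 1794 (K.s 1498 (K.s 828 K.t K.t) (K.s 185 K.t K.t)) (K.s 999 (K.s 819 K.t K.t) (K.s 126 K.t K.t))))) (T.lf (K.s 10111 (K.s 2461 (K.s 1207 (K.s 736 K.z K.t) (K.s 348 K.t K.t)) (K.s 4764 K.t (K.s 2136 K.t K.t))) (K.s 3519 (K.s 204 K.t (K.s 3135 K.t K.t)) (K.s 1092 K.t (K.s 105 K.t K.t)))))) (T.nd (T.lf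 (K.s 12068 (K.s 6479 (K.s 4710 K.z K.t) K.t) (K.s 1026 K.t (K.s 721 K.t K.t)))) (T.lf (K.s 14430 (K.s 14196 K.z K.t) K.t))))))) T.nil) T.nil)) T.nil

/-- part 38 of the values -/
noncomputable def t38 : T := T.nd (T.nd (T.nd T.nil (T.nd (T.nd T.nil (T.nd T.nil (T.nd (T.nd (T.nd (T.lf (K.s 8371 (K.s 5044 (K.s 2398 (K.s 889 K.z K.t) K.t) (K.s 2665 K.t (K.s 65 K.t K.t))) (K.s 3427 (K.s 375 K.t K.t) (K.s 1556 K.t (K.s 181 K.t K.t))))) (T.lf (K.s 8261 (K.s 6503 (K.s 3180 (K.s 1022 K.z K.t) K.t) (K.s 364 K.t (K.s 5 K.t K.t))) (K.s 825 (K.s 255 K.t (K.s 372 K.t K.t)) (K.s 78 K.t (K.s 2727 K.t K.t)))))) (T.nd (T.lf (K.s 9207 (K.s 1350 (K.s 882 K.z K.t) (K.s 76 K.t K.t)) (K.s 3528 K.t (K.s 375 K.t K.t)))) (T.lf (K.s 6592 (K.s 3082 (K.s 1192 (K.s 481 K.z K.t) K.t)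 (K.s 885 K.t K.t)) (K.s 2205 (K.s 270 K.t K.t) (K.s 1020 K.t (K.s 1815 K.t K.t))))))) (T.nd (T.nd (T.lf (K.s 7262 (K.s 5246 (K.s 3041 (K.s 1322 K.z K.t) (K.s 2034 K.t K.t)) (K.s 846 (K.s 378 K.t K.t) (K.s 45 K.t K.t))) (K.s 1845 (K.s 305 (K.s 120 K.t K.t) (K.s 460 K.t K.t)) (K.s 1425 (K.s 300 K.t K.t) (K.s 2205 K.t K.t))))) (T.lf (K.s 9384 (K.s 6789 (K.s 2604 (K.s 1974 K.z K.t) (K.s 2493 K.t K.t)) (K.s 2169 (K.s 1512 K.t K.t) (K.s 99 K.t K.t))) (K.s 384 (K.s 93 K.t (K.s 42 K.t K.t)) (K.s 3051 (K.s 2148 K.t K.t) (K.s 1441 K.t K.t)))))) (T.nd (T.lf (K.s 6508 (K.s 3403 (K.s 2053 (K.s 271 K.z K.t) (K.s 990 K.t K.t)) (K.s 171 K.t (K.s 585 K.t K.t))) (K.s 2403 (K.s 405 K.t (K.s 1281 K.t K.t)) (K.s 657 (K.s 612 K.t K.t) (K.s 3045 K.t K.t))))) (T.lf (K.s 7844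 (K.s 2255 (K.s 2060 (K.s 875 K.z K.t) K.t) (K.s 3798 K.t (K.s 342 K.t K.t))) (K.s 1284 (K.s 441 K.t (K.s 747 K.t K.t)) (K.s 372 K.t (K.s 4014 K.t K.t)))))))))) T.nil)) T.nil) T.nil

/-- part 39 of the values -/
noncomputable def t39 : T := T.nd (T.nd T.nil (T.nd T.nil (T.nd (T.nd T.nil (T.nd T.nil (T.nd (T.nd (T.nd T.nil (T.lf (K.s 12641 K.z K.t))) (T.nd (T.lf (K.s 3224 (K.s 714 K.z K.t) K.t)) (T.lf (K.s 9376 (K.s 4812 (K.s 151 K.z K.t) K.t) (K.s 1619 K.t (K.s 3456 K.t K.t)))))) (T.nd (T.nd (T.lf (K.s 3452 (K.s 106 K.z K.t) (K.s 2813 K.t K.t))) (T.lf (K.s 2090 K.z K.t))) (T.nd (T.lf (K.s 14412 (K.s 8532 K.z K.t) K.t)) (T.lf (K.s 9130 K.z K.t))))))) T.nil))) T.nil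

/-- part 40 of the values -/
noncomputable def t40 : T := T.nd (T.nd T.nil (T.nd (T.nd T.nil (T.nd T.nil (T.nd T.nil (T.nd (T.nd (T.nd (T.lf (K.s 11191 (K.s 3407 K.z K.t) K.t)) (T.lf (K.s 13959 (K.s 9584 K.z K.t) K.t))) T.nil) (T.nd T.nil (T.nd (T.lf (K.s 1447 (K.s 824 K.z K.t) (K.s 4653 K.t K.t))) (T.lf (K.s 6095 (K.s 3303 K.z K.t) K.t)))))))) T.nil)) T.nil

/-- part 41 of the values -/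
noncomputable def t41 : T := T.nd (T.nd (T.nd T.nil (T.nd T.nil (T.nd T.nil (T.nd T.nil (T.nd (T.nd (T.nd (T.lf (K.s 7470 (K.s 4245 (K.s 1194 (K.s 781 K.z K.t) (K.s 755 K.t K.t)) (K.s 1080 K.t (K.s 1530 K.t K.t))) (K.s 1104 (K.s 240 K.t (K.s 45 K.t K.t)) (K.s 1206 K.t (K.s 4983 K.t K.t))))) (T.lf (K.s 6607 (K.s 4762 (K.s 2287 (K.s 262 K.z K.t) K.t) (K.s 717 K.t K.t)) (K.s 1605 (K.s 945 K.t K.t) (K.s 1644 K.t (K.s 1836 K.t K.t)))))) (T.nd (T.lf (K.s 5750 (K.s 4211 (K.s 3221 K.z K.t) K.t) (K.s 6501 K.t (K.s 2581 K.t K.t)))) (T.lf (K.s 9468 (K.s 6843 (K.s 4953 (K.s 3666 K.z K.t) K.t) (K.s 420 K.t (K.s 1620 K.t K.t))) (K.s 1965 (K.s 259 K.t K.t) (K.s 1605 K.t (K.s 285 K.t K.t))))))) (T.nd (T.nd (T.lf (K.s 7243 (K.s 5173 (K.s 73 K.z K.t) K.t) (K.s 225 K.t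 K.t))) (T.lf (K.s 8150 (K.s 5600 (K.s 3525 (K.s 1685 K.z K.t) K.t) (K.s 1503 K.t (K.s 297 K.t K.t))) (K.s 1255 (K.s 298 K.t (K.s 692 K.t K.t)) (K.s 95 K.t (K.s 3931 K.t K.t)))))) (T.nd (T.lf (K.s 7029 (K.s 4479 (K.s 3654 (K.s 945 K.z K.t) K.t) (K.s 2325 K.t K.t)) (K.s 3555 (K.s 2019 K.t K.t) (K.s 621 K.t K.t)))) (T.lf (K.s 7291 (K.s 1591 (K.s 676 (K.s 256 K.z K.t) K.t) (K.s 78 K.t K.t)) (K.s 2208 (K.s 570 K.t K.t) (K.s 2214 K.t (K.s 2328 K.t K.t)))))))))))) T.nil) T.nil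

/-- part 42 of the values -/
noncomputable def t42 : T := T.nd (T.nd T.nil (T.nd T.nil (T.nd T.nil (T.nd T.nil (T.nd T.nil (T.nd (T.nd (T.nd (T.lf (K.s 14274 (K.s 8255 K.z K.t) K.t)) T.nil) (T.nd (T.lf (K.s 7609 (K.s 2330 K.z K.t) K.t)) (T.lf (K.s 12561 (K.s 12416 K.z K.t) K.t)))) (T.nd (T.nd (T.lf (K.s 7723 (K.s 4306 K.z K.t) (K.s 4499 K.t K.t))) (T.lf (K.s 13315 (K.s 5989 K.z K.t) (K.s 199 K.t K.t)))) T.nil))))))) T.nil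


end Pool.Agent.U982.M15595
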