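import Pool.Agent.U982.M15595.Asm

set_option autoImplicit false
set_option maxRecDepth 100000
set_option exponentiation.threshold 1000000000

namespace Pool.Agent.U982.M15595

open Pool.Agent.U982.DL

open Pool.Agent.X40.SQ (q)

theorem whole : ∀ k m, 3 ≤ k → 3 ≤ m → k + m = 15595 →
    ¬ (q (Nat.totient k * Nat.totient m / 4) + 1).Prime :=
  final Ts 15595 13 (by norm_num) hall cover

end Pool.Agent.U982.M15595
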